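import Pool.Agent.L7h11.JS.Gal
import Pool.Agent.L7h11.GG.Supp

/-!
# The primes of degree one of a cyclotomic extension above a prime which is one modulo `ℓ`
-/

set_option autoImplicit false
set_option linter.unusedSectionVars false

namespace Pool.Agent.L7h11.JS

open Finset NumberField IsDedekindDomain Filter
open Pool.Agent.W353.TP (HX res)
open Pool.Agent.W353.NF (vx)

variable {ℓ : ℕ} [hℓ : Fact ℓ.Prime] {K F : Type} [Field K] [NumberField K] [Field F]
  [NumberField F] [Algebra K F] [hF : IsCyclotomicExtension {ℓ} K F]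

/-- every element has a multiple in the subalgebra generated by the roots of unity -/
theorem exists_mult (x : F) : ∃ n : 𝓞 K, n ≠ 0 ∧
    ∃ b ∈ Algebra.adjoin (𝓞 K) {z : 𝓞 F | z ^ ℓ = 1}, (b : F) = algebraMap K F (n : K) * x := by
  have hx := hF.adjoin_roots x
  induction hx using Algebra.adjoin_induction with
  | mem y hy =>
    obtain ⟨m, hm, -, hym⟩ := hy
    rw [Set.mem_singleton_iff] at hm
    subst hm
    have hint : IsIntegral ℤ y := by
      refine ⟨Polynomial.X ^ m - 1, Polynomial.monic_X_pow_sub_C 1 hℓ.out.ne_zero, ?_⟩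
      simp [hym]
    obtain ⟨y', rfl⟩ := (IsIntegralClosure.isIntegral_iff (A := 𝓞 F)).1 hint
    refine ⟨1, one_ne_zero, y', Algebra.subset_adjoin ?_, ?_⟩
    · apply RingOfIntegers.ext
      change algebraMap (𝓞 F) F (y' ^ m) = algebraMap (𝓞 F) F 1
      rw [map_pow, map_one]
      exact hym
    · have h1 : ((1 : 𝓞 K) : K) = 1 := map_one (algebraMap (𝓞 K) K)
      rw [h1, map_one, one_mul]
  | algebraMap c =>
    obtain ⟨a, n, hn, rfl⟩ := IsFractionRing.div_surjective (A := 𝓞 K) c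
    have hn' : n ≠ 0 := nonZeroDivisors.ne_zero hn
    refine ⟨n, hn', algebraMap (𝓞 K) (𝓞 F) a, Subalgebra.algebraMap_mem _ _, ?_⟩
    change algebraMap (𝓞 F) F (algebraMap (𝓞 K) (𝓞 F) a) = algebraMap K F (algebraMap (𝓞 K) K n) * _
    rw [← IsScalarTower.algebraMap_apply (𝓞 K) (𝓞 F) F, IsScalarTower.algebraMap_apply (𝓞 K) K F,
      ← map_mul, mul_div_cancel₀]
    rw [Ne, map_eq_zero_iff _ RingOfIntegers.coe_injective]
    exact hn'
  | add x y _ _ h1 h2 =>
    obtain ⟨n, hn, b, hb, e⟩ := h1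
    obtain ⟨n', hn', b', hb', e'⟩ := h2
    refine ⟨n * n', mul_ne_zero hn hn', algebraMap (𝓞 K) (𝓞 F) n' * b +
      algebraMap (𝓞 K) (𝓞 F) n * b', Subalgebra.add_mem _
        (Subalgebra.mul_mem _ (Subalgebra.algebraMap_mem _ _) hb)
        (Subalgebra.mul_mem _ (Subalgebra.algebraMap_mem _ _) hb'), ?_⟩
    have h3 : ∀ c : 𝓞 K, algebraMap (𝓞 F) F (algebraMap (𝓞 K) (𝓞 F) c) =
        algebraMap K F (c : K) := by
      intro c
      rw [← IsScalarTower.algebraMap_apply (𝓞 K) (𝓞 F) F, IsScalarTower.algebraMap_apply (𝓞 K) K F]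
    change algebraMap (𝓞 F) F (_ + _) = algebraMap K F (algebraMap (𝓞 K) K (n * n')) * (x + y)
    have e1 : algebraMap (𝓞 F) F b = algebraMap K F (n : K) * x := e
    have e2 : algebraMap (𝓞 F) F b' = algebraMap K F (n' : K) * y := e'
    rw [map_add, map_mul, map_mul, h3, h3, e1, e2, map_mul, map_mul]
    ring
  | mul x y _ _ h1 h2 =>
    obtain ⟨n, hn, b, hb, e⟩ := h1
    obtain ⟨n', hn', b', hb', e'⟩ := h2
    refine ⟨n * n', mul_ne_zero hn hn', b * b', Subalgebra.mul_mem _ hb hb', ?_⟩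
    change algebraMap (𝓞 F) F (b * b') = algebraMap K F (algebraMap (𝓞 K) K (n * n')) * (x * y)
    have e1 : algebraMap (𝓞 F) F b = algebraMap K F (n : K) * x := e
    have e2 : algebraMap (𝓞 F) F b' = algebraMap K F (n' : K) * y := e'
    rw [map_mul, e1, e2, map_mul, map_mul]
    ring

/-- **Almost all primes of degree one of `K` of characteristic one modulo `ℓ` are restrictions.** -/
theorem exists_over : ∀ᶠ x : HX K in cofinite, ℓ ∣ (x.1 : ℕ) - 1 →
    ∃ ψ : 𝓞 F →+* ZMod (x.1 : ℕ), res K ψ = x.2 := by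
  classical
  set β := RingOfIntegers.basis F with hβ
  choose n hn b hb hbe using fun i => exists_mult (ℓ := ℓ) (K := K) ((β i : 𝓞 F) : F)
  set N : 𝓞 K := ∏ i, n i with hN
  have hN0 : N ≠ 0 := prod_ne_zero_iff.2 fun i _ => hn i
  have hfin := Pool.Agent.L7h11.GG.finite_zero (F := K) hN0
  have hev : ∀ᶠ x : HX K in cofinite, x.2 N ≠ 0 := by
    rw [Filter.eventually_cofinite]
    simpa using hfin
  filter_upwards [hev] with x hx hdvd
  have hp : Fact (x.1 : ℕ).Prime := ⟨x.1.2⟩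
  set p : ℕ := (x.1 : ℕ) with hpdef
  have hmax := ker_maximal x.2
  obtain ⟨Q, hQ, hQc⟩ := Ideal.exists_ideal_over_maximal_of_isIntegral (S := 𝓞 F)
    (RingHom.ker x.2) (by
      rw [(RingHom.injective_iff_ker_eq_bot _).1
        (FaithfulSMul.algebraMap_injective (𝓞 K) (𝓞 F))]
      exact bot_le)
  let _ : Field (𝓞 F ⧸ Q) := Ideal.Quotient.field Q
  set q : 𝓞 F →+* 𝓞 F ⧸ Q := Ideal.Quotient.mk Q with hq
  have hker : ∀ a : 𝓞 K, x.2 a = 0 → q (algebraMap (𝓞 K) (𝓞 F) a) = 0 := by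
    intro a ha
    rw [hq, Ideal.Quotient.eq_zero_iff_mem, ← Ideal.mem_comap, hQc]
    exact ha
  have hp0 : ((p : ℕ) : 𝓞 F ⧸ Q) = 0 := by
    have := hker (p : 𝓞 K) (by rw [map_natCast, CharP.cast_eq_zero])
    rwa [map_natCast, map_natCast] at this
  have hchar : CharP (𝓞 F ⧸ Q) p := (CharP.charP_iff_prime_eq_zero hp.out).2 hp0
  set r : ZMod p →+* 𝓞 F ⧸ Q := ZMod.castHom (dvd_refl p) _ with hr
  have hrK : ∀ a : 𝓞 K, q (algebraMap (𝓞 K) (𝓞 F) a) = r (x.2 a) := by
    intro a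
    obtain ⟨c, hc⟩ := ZMod.intCast_surjective (x.2 a)
    have h1 := hker (a - c) (by rw [map_sub, map_intCast, hc, sub_self])
    rw [map_sub, map_sub, map_intCast, map_intCast, sub_eq_zero] at h1
    rw [h1, ← hc, map_intCast]
  -- the roots of unity
  have hroot : ∀ z : 𝓞 F, z ^ ℓ = 1 → q z ∈ r.range := by
    intro z hz
    obtain ⟨g, hg⟩ := IsCyclic.exists_generator (α := (ZMod p)ˣ)
    obtain ⟨c, hc⟩ := hdvd
    have hp1 := hp.out.one_lt
    have hc0 : c ≠ 0 := by
      rintro rfl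
      rw [mul_zero] at hc
      omega
    have hord : orderOf g = p - 1 := by
      rw [orderOf_eq_card_of_forall_mem_zpowers hg, Nat.card_eq_fintype_card, ZMod.card_units]
    have hω : IsPrimitiveRoot ((g : ZMod p) ^ c) ℓ := by
      have h1 : IsPrimitiveRoot (g : ZMod p) (p - 1) := by
        rw [IsPrimitiveRoot.coe_units_iff, ← hord]
        exact IsPrimitiveRoot.orderOf g
      refine h1.pow (by omega) ?_
      rw [hc, mul_comm]
    have hω' : IsPrimitiveRoot (r ((g : ZMod p) ^ c)) ℓ := hω.map_of_injective r.injective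
    have : NeZero ℓ := ⟨hℓ.out.ne_zero⟩
    have hz' : (q z) ^ ℓ = 1 := by rw [← map_pow, hz, map_one]
    obtain ⟨i, -, hi⟩ := hω'.eq_pow_of_pow_eq_one hz'
    rw [← hi, ← map_pow]
    exact ⟨_, rfl⟩
  have hS : ∀ c ∈ Algebra.adjoin (𝓞 K) {z : 𝓞 F | z ^ ℓ = 1}, q c ∈ r.range := by
    intro c hc
    induction hc using Algebra.adjoin_induction with
    | mem z hz => exact hroot z hz
    | algebraMap a => exact ⟨_, (hrK a).symm⟩
    | add a a' _ _ h1 h2 => rw [map_add]; exact Subring.add_mem _ h1 h2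
    | mul a a' _ _ h1 h2 => rw [map_mul]; exact Subring.mul_mem _ h1 h2
  have hbas : ∀ i, q (β i) ∈ r.range := by
    intro i
    have h1 : b i = algebraMap (𝓞 K) (𝓞 F) (n i) * β i := by
      apply RingOfIntegers.ext
      rw [hbe]
      change _ = algebraMap (𝓞 F) F (algebraMap (𝓞 K) (𝓞 F) (n i) * β i)
      rw [map_mul, ← IsScalarTower.algebraMap_apply (𝓞 K) (𝓞 F) F,
        IsScalarTower.algebraMap_apply (𝓞 K) K F]
    obtain ⟨y, hy⟩ := hS _ (hb i)
    rw [h1, map_mul, hrK] at hy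
    have h2 : x.2 (n i) ≠ 0 := by
      intro h
      apply hx
      rw [hN, map_prod]
      exact prod_eq_zero (mem_univ i) h
    refine ⟨(x.2 (n i))⁻¹ * y, ?_⟩
    rw [map_mul, hy, ← mul_assoc, ← map_mul, inv_mul_cancel₀ h2, map_one, one_mul]
  have hall : ∀ c : 𝓞 F, q c ∈ r.range := by
    intro c
    rw [← β.sum_repr c, map_sum]
    refine Subring.sum_mem _ fun i _ => ?_
    rw [zsmul_eq_mul, map_mul, map_intCast]
    exact Subring.mul_mem _ (intCast_mem r.range _) (hbas i)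
  have hrinj : Function.Injective r := r.injective
  have hbij : Function.Bijective r.rangeRestrict :=
    ⟨fun a a' h => hrinj (congrArg Subtype.val h), r.rangeRestrict_surjective⟩
  set e := RingEquiv.ofBijective r.rangeRestrict hbij with he
  refine ⟨(e.symm : r.range →+* ZMod p).comp (q.codRestrict r.range hall), ?_⟩
  apply RingHom.ext
  intro a
  apply hrinj
  have h1 : ∀ c : 𝓞 F, r (e.symm (q.codRestrict r.range hall c)) = q c := by
    intro c
    have h2 := e.apply_symm_apply (q.codRestrict r.range hall c)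
    exact congrArg Subtype.val h2
  have h2 := h1 (algebraMap (𝓞 K) (𝓞 F) a)
  rw [hrK] at h2
  exact h2

end Pool.Agent.L7h11.JS
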