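import Pool.Agent.L7h11.JS.Hk
import Pool.Agent.L7h11.JS.Over
import Pool.Agent.N172.HS.Mul

/-!
# The mean square of the Frobenius traces of `y² = x ^ ℓ + 1` over an extension of `ℚ(ζ_ℓ)`
-/

set_option autoImplicit false
set_option linter.unusedSectionVars false

namespace Pool.Agent.L7h11.JS

open Finset NumberField IsDedekindDomain Filter Topology Asymptotics
open Pool.Agent.N172.HS
open Pool.Agent.W353.TP (HX sysH LL LL_tendsto bdd_isLittleO push res lamS_sub)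
open Pool.Agent.W353.NF (vx)
open scoped ComplexConjugate

section comb

variable {ℓ : ℕ} [hℓ : Fact ℓ.Prime]

/-- a multiplier of the half system is trivial -/
theorem mult_one (hodd : Odd ℓ) (w : (ZMod ℓ)ˣ)
    (h : ∀ v : (ZMod ℓ)ˣ, 2 * (v : ZMod ℓ).val < ℓ ↔ 2 * ((w * v : (ZMod ℓ)ˣ) : ZMod ℓ).val < ℓ) :
    w = 1 := by
  have h3 : 3 ≤ ℓ := by
    have := hℓ.out.two_le
    obtain ⟨k, hk⟩ := hodd
    omega
  have : Fact (1 < ℓ) := ⟨hℓ.out.one_lt⟩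
  set a := (w : ZMod ℓ).val with ha
  have ha0 : 0 < a := val_pos ℓ w
  have h1 : 2 * a < ℓ := by
    have h2 := (h 1).1 (by rw [Units.val_one, ZMod.val_one]; omega)
    rwa [mul_one] at h2
  by_contra hw
  have ha2 : 2 ≤ a := by
    by_contra hcon
    have : a = 1 := by omega
    apply hw
    ext
    rw [Units.val_one]
    apply ZMod.val_injective ℓ
    rw [← ha, this, ZMod.val_one]
  obtain ⟨s, hs⟩ : ∃ s, s = ℓ / (2 * a) := ⟨_, rfl⟩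
  obtain ⟨t, ht⟩ : ∃ t, t = s + 1 := ⟨_, rfl⟩
  have t1 : (2 * a) * s ≤ ℓ := by rw [hs]; exact Nat.mul_div_le _ _
  have t2 : ℓ < (2 * a) * t := by
    rw [ht, hs]
    exact Nat.lt_mul_div_succ ℓ (by omega)
  obtain ⟨k, hk⟩ := hodd
  have t3 : 2 * (a * s) ≤ 2 * k := by
    have e : (2 * a) * s = 2 * (a * s) := by ring
    omega
  have t4 : a * t < ℓ := by
    rw [ht, mul_add, mul_one]
    omega
  have t5 : 2 * t < ℓ := by
    have : 4 * s ≤ (2 * a) * s := Nat.mul_le_mul_right _ (by omega)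
    omega
  have ht0 : 0 < t := by omega
  have hunit : IsUnit ((t : ℕ) : ZMod ℓ) := by
    rw [ZMod.isUnit_iff_coprime]
    exact (Nat.coprime_comm.1 ((Nat.Prime.coprime_iff_not_dvd hℓ.out).2
      fun hd => absurd (Nat.le_of_dvd ht0 hd) (by omega)))
  set v := hunit.unit with hv
  have hv1 : (v : ZMod ℓ).val = t := by
    rw [hv, IsUnit.unit_spec, ZMod.val_natCast, Nat.mod_eq_of_lt (by omega)]
  have h2 := (h v).1 (by rw [hv1]; exact t5)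
  rw [Units.val_mul, ZMod.val_mul, hv1, ← ha, Nat.mod_eq_of_lt t4] at h2
  have e : (2 * a) * t = 2 * (a * t) := by ring
  omega

variable {E : Type} [Field E] [NumberField E] [hE : IsCyclotomicExtension {ℓ} ℚ E]

theorem SS_inj (hodd : Odd ℓ) {j k : (ZMod ℓ)ˣ} (h : ∀ g : Gal(E/ℚ), g ∈ SS ℓ E j ↔ g ∈ SS ℓ E k) :
    j = k := by
  have h1 : k * j⁻¹ = 1 := by
    apply mult_one hodd
    intro v
    have h2 := h ((ex ℓ E).symm (j * v⁻¹))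
    rw [mem_SS, mem_SS, (ex ℓ E).apply_symm_apply] at h2
    have e1 : j * (j * v⁻¹)⁻¹ = v := by
      rw [mul_inv_rev, inv_inv, mul_comm v, mul_inv_cancel_left]
    have e2 : k * (j * v⁻¹)⁻¹ = k * j⁻¹ * v := by
      rw [mul_inv_rev, inv_inv, mul_comm v, mul_assoc]
    rw [e1, e2] at h2
    exact h2
  exact (mul_inv_eq_one.1 h1).symm

theorem JJ_inj (hodd : Odd ℓ) {p : ℕ} [Fact p.Prime] (h2 : p ≠ 2) (φ : 𝓞 E →+* ZMod p)
    (hpℓ : p ≠ ℓ) {j k : (ZMod ℓ)ˣ} (h : JJ ℓ j φ hpℓ = JJ ℓ k φ hpℓ) : j = k := by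
  apply SS_inj (E := E) hodd
  intro g
  rw [← map_act_JJ ℓ hodd h2 j φ hpℓ g, ← map_act_JJ ℓ hodd h2 k φ hpℓ g, h]

end comb

section exist

variable (F : Type) [Field F] [NumberField F]

/-- there are infinitely many primes of degree one -/
theorem exists_HX {n : 𝓞 F} (hn : n ≠ 0) : ∃ y : HX F, y.2 n ≠ 0 := by
  classical
  by_contra hcon
  push Not at hcon
  have hfin := Pool.Agent.L7h11.GG.finite_zero (F := F) hn
  have h1 : (fun ε => (1 : ℝ) * LL ε) =o[𝓝[>] 0] LL := by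
    have h2 : (fun ε => EH F ε (fun _ => (1 : ℝ))) =o[𝓝[>] 0] LL := by
      apply bdd_isLittleO
      refine ⟨hfin.toFinset.card * 1, ?_⟩
      filter_upwards [self_mem_nhdsWithin] with ε hε
      exact EH_finsupp hfin.toFinset (fun x hx => by
        rw [Set.Finite.mem_toFinset] at hx
        exact absurd (hcon x) hx) (fun _ => by rw [abs_one]) hε
    refine (h2.sub (lamS_sub (sysH F))).congr_left fun ε => ?_
    rw [EH_one]
    ring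
  exact one_ne_zero (LL_not_littleO h1)

end exist

section bc

variable {ℓ : ℕ} [hℓ : Fact ℓ.Prime] {E : Type} [Field E] [NumberField E]
  [hE : IsCyclotomicExtension {ℓ} ℚ E] {F : Type} [Field F] [NumberField F]

/-- **The Hecke characters over `F`.** -/
theorem exists_bc (hodd : Odd ℓ) (i' : E →+* F) (ι : E →+* ℂ) (j : (ZMod ℓ)ˣ) :
    ∃ (𝔪 : Ideal (𝓞 F)) (k : (F →+* ℂ) → ℤ) (t : (F →+* ℂ) → ℝ) (ψ : Ideal (𝓞 F) →*₀ ℂ),
      IsHecke 𝔪 k t ψ ∧ ∀ y : HX F, ∀ hpℓ : (y.1 : ℕ) ≠ ℓ, (y.1 : ℕ) ≠ 2 →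
        hv ψ y = -emb ι (JJ ℓ j (y.2.comp (RingOfIntegers.mapRingHom i')) hpℓ) /
          ((Real.sqrt ((y.1 : ℕ) : ℝ) : ℝ) : ℂ) := by
  obtain ⟨ψ₀, h1, h2⟩ := exists_hecke ℓ hodd j ι
  obtain ⟨𝔪, k, t, ψ, h3, h4⟩ := exists_along i' (RingOfIntegers.mapRingHom i')
    (fun x => rfl) h1
  refine ⟨𝔪, k, t, ψ, h3, fun y hpℓ hp2 => ?_⟩
  have h5 := h4 (y.1 : ℕ) y.2
  have h6 := h2 ⟨⟨y.1, y.2.comp (RingOfIntegers.mapRingHom i')⟩, hp2, hpℓ⟩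
  unfold hv
  rw [h5]
  exact h6

/-- orthogonality -/
theorem bc_gram (hodd : Odd ℓ) (i' : E →+* F) (ι : E →+* ℂ) (j k : (ZMod ℓ)ˣ)
    {𝔪 𝔪' : Ideal (𝓞 F)} {κ κ' : (F →+* ℂ) → ℤ} {t t' : (F →+* ℂ) → ℝ}
    {ψ ψ' : Ideal (𝓞 F) →*₀ ℂ} (h : IsHecke 𝔪 κ t ψ) (h' : IsHecke 𝔪' κ' t' ψ')
    (hval : ∀ y : HX F, ∀ hpℓ : (y.1 : ℕ) ≠ ℓ, (y.1 : ℕ) ≠ 2 →
        hv ψ y = -emb ι (JJ ℓ j (y.2.comp (RingOfIntegers.mapRingHom i')) hpℓ) /
          ((Real.sqrt ((y.1 : ℕ) : ℝ) : ℝ) : ℂ))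
    (hval' : ∀ y : HX F, ∀ hpℓ : (y.1 : ℕ) ≠ ℓ, (y.1 : ℕ) ≠ 2 →
        hv ψ' y = -emb ι (JJ ℓ k (y.2.comp (RingOfIntegers.mapRingHom i')) hpℓ) /
          ((Real.sqrt ((y.1 : ℕ) : ℝ) : ℝ) : ℂ)) (hjk : j ≠ k) :
    HasGram (hv ψ) (hv ψ') 0 := by
  have hQ : StNvq := Pool.Agent.N134.HS.t_nvq
  have hH := h.mul h'.conj
  have hne : ∃ 𝔠, mulc ψ (cj ψ') 𝔠 ≠ 0 ∧ mulc ψ (cj ψ') 𝔠 ≠ 1 := by
    have hn : ((2 * ℓ : ℕ) : 𝓞 F) ≠ 0 := by
      exact_mod_cast (Nat.mul_pos two_pos hℓ.out.pos).ne'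
    obtain ⟨y, hy⟩ := exists_HX F hn
    have hp : Fact (y.1 : ℕ).Prime := ⟨y.1.2⟩
    rw [map_natCast, Ne, ZMod.natCast_eq_zero_iff, y.1.2.dvd_mul, not_or] at hy
    have hp2 : (y.1 : ℕ) ≠ 2 := fun h => hy.1 (by rw [h])
    have hpℓ : (y.1 : ℕ) ≠ ℓ := fun h => hy.2 (by rw [h])
    set φ := y.2.comp (RingOfIntegers.mapRingHom i') with hφ
    have e1 := hval y hpℓ hp2
    have e2 := hval' y hpℓ hp2
    have n1 := norm_JJ_sq ℓ hodd hp2 j φ hpℓ ι 1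
    have n2 := norm_JJ_sq ℓ hodd hp2 k φ hpℓ ι 1
    rw [act_one] at n1 n2
    have hpos : (0 : ℝ) < ((y.1 : ℕ) : ℝ) := by exact_mod_cast y.1.2.pos
    have hs : ((Real.sqrt ((y.1 : ℕ) : ℝ) : ℝ) : ℂ) ≠ 0 := by
      rw [Ne, Complex.ofReal_eq_zero]
      exact (Real.sqrt_pos.2 hpos).ne'
    have z1 : emb ι (JJ ℓ j φ hpℓ) ≠ 0 := by
      intro h0
      rw [h0, norm_zero] at n1
      norm_num at n1
      exact hpos.ne n1
    have z2 : emb ι (JJ ℓ k φ hpℓ) ≠ 0 := by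
      intro h0
      rw [h0, norm_zero] at n2
      norm_num at n2
      exact hpos.ne n2
    have e3 : ψ (RingHom.ker y.2) = hv ψ y := rfl
    have e4 : ψ' (RingHom.ker y.2) = hv ψ' y := rfl
    have v1 : hv ψ y ≠ 0 := by rw [e1]; exact div_ne_zero (neg_ne_zero.2 z1) hs
    have v2 : hv ψ' y ≠ 0 := by rw [e2]; exact div_ne_zero (neg_ne_zero.2 z2) hs
    refine ⟨RingHom.ker y.2, ?_, fun h1 => ?_⟩
    · rw [mulc_apply, cj_apply, e3, e4]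
      exact mul_ne_zero v1 ((map_ne_zero _).2 v2)
    · rw [mulc_apply, cj_apply, e3, e4] at h1
      have h3 : hv ψ' y * conj (hv ψ' y) = 1 := by
        rw [Complex.mul_conj, Complex.normSq_eq_norm_sq, ← e4, h'.unit _ (by rw [e4]; exact v2)]
        norm_num
      have h4 := mul_right_cancel₀ ((map_ne_zero _).2 v2) (h1.trans h3.symm)
      rw [e1, e2] at h4
      have h5 := (div_left_inj' hs).1 h4
      have h6 := neg_injective h5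
      exact hjk (JJ_inj hodd hp2 φ hpℓ (emb_injective ι h6))
  unfold HasGram
  refine (meanH_zero hQ hH hne).congr_left fun ε => ?_
  rw [zero_mul, sub_zero]
  rfl

theorem diag_gram {𝔪 : Ideal (𝓞 F)} {κ : (F →+* ℂ) → ℤ} {t : (F →+* ℂ) → ℝ}
    {ψ : Ideal (𝓞 F) →*₀ ℂ} (h : IsHecke 𝔪 κ t ψ) : HasGram (hv ψ) (hv ψ) 1 := by
  unfold HasGram
  have h1 := meanH_one (K := F) (g := fun W => (ψ W.asIdeal * conj (ψ W.asIdeal)).re)
    (fun W => by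
      refine (Complex.abs_re_le_norm _).trans ?_
      rw [norm_mul, Complex.norm_conj]
      exact mul_le_one₀ (h.norm_le _) (norm_nonneg _) (h.norm_le _)) (by
      filter_upwards [h.eventually_ne] with W h1 _
      rw [Complex.mul_conj, Complex.normSq_eq_norm_sq, h.unit _ h1]
      simp)
  refine h1.congr_left fun ε => ?_
  rw [one_mul]
  rfl

theorem hv_bdd {𝔪 : Ideal (𝓞 F)} {κ : (F →+* ℂ) → ℤ} {t : (F →+* ℂ) → ℝ}
    {ψ : Ideal (𝓞 F) →*₀ ℂ} (h : IsHecke 𝔪 κ t ψ) : Bdd (hv ψ) :=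
  ⟨1, zero_le_one, fun x => norm_hv_le h x⟩

/-- the normalised trace of the curve `y² = x ^ ℓ + 1` over the field with `p` elements -/
noncomputable def cu (ℓ p : ℕ) [Fact p.Prime] : ℝ :=
  ((∑ a : ZMod p, quadraticChar (ZMod p) (a ^ ℓ + 1) : ℤ) : ℝ) / Real.sqrt p

theorem sum_units {M : Type*} [AddCommMonoid M] (f : ℕ → M) :
    ∑ j : (ZMod ℓ)ˣ, f (j : ZMod ℓ).val = ∑ j ∈ Icc 1 (ℓ - 1), f j := by
  classical
  refine sum_bij (fun j _ => (j : ZMod ℓ).val) ?_ ?_ ?_ ?_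
  · intro j _
    have h1 := val_pos ℓ j
    have h2 := ZMod.val_lt (j : ZMod ℓ)
    exact mem_Icc.2 ⟨h1, by omega⟩
  · intro j _ k _ h
    exact Units.ext (ZMod.val_injective ℓ h)
  · intro n hn
    rw [mem_Icc] at hn
    have hℓ2 := hℓ.out.two_le
    have hunit : IsUnit ((n : ℕ) : ZMod ℓ) := by
      rw [ZMod.isUnit_iff_coprime]
      exact (Nat.coprime_comm.1 ((Nat.Prime.coprime_iff_not_dvd hℓ.out).2
        fun hd => absurd (Nat.le_of_dvd (by omega) hd) (by omega)))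
    refine ⟨hunit.unit, mem_univ _, ?_⟩
    rw [IsUnit.unit_spec, ZMod.val_natCast, Nat.mod_eq_of_lt (by omega)]
  · intro j _
    rfl

/-- the sum of the values of the Hecke characters is the trace of the curve -/
theorem sum_hv (hodd : Odd ℓ) (i' : E →+* F) (ι : E →+* ℂ) {ψ : (ZMod ℓ)ˣ → Ideal (𝓞 F) →*₀ ℂ}
    (hval : ∀ j, ∀ y : HX F, ∀ hpℓ : (y.1 : ℕ) ≠ ℓ, (y.1 : ℕ) ≠ 2 →
        hv (ψ j) y = -emb ι (JJ ℓ j (y.2.comp (RingOfIntegers.mapRingHom i')) hpℓ) /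
          ((Real.sqrt ((y.1 : ℕ) : ℝ) : ℝ) : ℂ)) (y : HX F) (hpℓ : (y.1 : ℕ) ≠ ℓ)
    (hp2 : (y.1 : ℕ) ≠ 2) : ∑ j, hv (ψ j) y = ((-cu ℓ (y.1 : ℕ) : ℝ) : ℂ) := by
  set φ := y.2.comp (RingOfIntegers.mapRingHom i') with hφ
  rw [sum_congr rfl fun j _ => hval j y hpℓ hp2, ← sum_div, sum_neg_distrib, ← map_sum]
  have h1 : ∑ j : (ZMod ℓ)ˣ, JJ ℓ j φ hpℓ = ∑ j ∈ Icc 1 (ℓ - 1), J (chi ℓ φ hpℓ) j :=
    sum_units (fun n => J (chi ℓ φ hpℓ) n)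
  rw [h1, ← sum_curve hp2 (chi_spec ℓ φ hpℓ) (ze_pow ℓ E) hodd (map_ze_prim ℓ hpℓ φ)
    (dvd_sub_one ℓ hpℓ φ)]
  unfold cu
  simp only [qc_apply]
  rw [← Int.cast_sum, map_intCast]
  push_cast
  ring

/-- **The mean square of the traces over `F`.** -/
theorem mean_sq_F (hodd : Odd ℓ) (i' : E →+* F) :
    ∃ f : HX F → ℂ, Bdd f ∧ HasGram f f (ℓ - 1 : ℝ) ∧
      ∀ y : HX F, (y.1 : ℕ) ≠ ℓ → (y.1 : ℕ) ≠ 2 → f y = ((-cu ℓ (y.1 : ℕ) : ℝ) : ℂ) := by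
  classical
  obtain ⟨ι⟩ : Nonempty (E →+* ℂ) := inferInstance
  choose 𝔪 κ t ψ h1 h2 using fun j => exists_bc (ℓ := ℓ) (F := F) hodd i' ι j
  have hg : ∀ j k, HasGram (hv (ψ j)) (hv (ψ k)) (if j = k then 1 else 0) := by
    intro j k
    split_ifs with h
    · subst h
      exact diag_gram (h1 j)
    · exact bc_gram hodd i' ι j k (h1 j) (h1 k) (h2 j) (h2 k) h
  have hG := HasGram.sum (K := F) (univ : Finset (ZMod ℓ)ˣ) univ
    (fun j _ => hv_bdd (h1 j)) (fun j _ => hv_bdd (h1 j)) (fun _ => 1) (fun _ => 1)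
    (fun j _ k _ => hg j k)
  have e : ∑ j : (ZMod ℓ)ˣ, ∑ k : (ZMod ℓ)ˣ, (1 : ℝ) * 1 * (if j = k then (1 : ℝ) else 0) =
      (ℓ - 1 : ℝ) := by
    simp only [one_mul, sum_ite_eq, mem_univ, if_true, sum_const, card_univ, nsmul_eq_mul, mul_one]
    rw [ZMod.card_units, Nat.cast_sub hℓ.out.one_le, Nat.cast_one]
  rw [e] at hG
  have e2 : (fun x : HX F => ∑ j ∈ (univ : Finset (ZMod ℓ)ˣ), ((1 : ℝ) : ℂ) * hv (ψ j) x) =
      fun x => ∑ j, hv (ψ j) x := by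
    funext x
    refine sum_congr rfl fun j _ => ?_
    rw [Complex.ofReal_one, one_mul]
  rw [e2] at hG
  refine ⟨fun x => ∑ j, hv (ψ j) x, ?_, hG, fun y hpℓ hp2 => sum_hv hodd i' ι h2 y hpℓ hp2⟩
  have := Bdd.sum (K := F) (univ : Finset (ZMod ℓ)ˣ) (fun j _ => hv_bdd (h1 j))
    (fun _ => ((1 : ℝ) : ℂ))
  rw [e2] at this
  exact this

end bc

end Pool.Agent.L7h11.JS
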