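import Pool.Agent.N172.HS.Pa

/-!
# Products with the curves `d y² = x ^ ℓ + 1`: definitions
-/

set_option autoImplicit false

namespace Pool.Agent.L7h11.JS

open NumberField IsDedekindDomain Filter Polynomial
open Pool.Agent.N172.HS (Variety)
open Pool.Agent.W353.EF (IsFrobenius)

/-- The number of the affine points of the curve `d y² = x ^ ℓ + 1` with coordinates in `κ`. -/
noncomputable def affine (ℓ : ℕ) (κ : Type) [Field κ] (d : κ) : ℕ :=
  Nat.card {P : κ × κ // d * P.2 ^ 2 = P.1 ^ ℓ + 1}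

variable {K : Type} [Field K] [NumberField K]

/-- `β` are the eigenvalues of the geometric Frobenius at the prime `v` on `H¹` of the smooth
projective curve `d y² = x ^ ℓ + 1`, `ℓ` odd, of genus `(ℓ - 1) / 2`: they have the absolute value
`q^{1/2}`, and for every finite extension `κ` of the residue field of `v`, of degree `e`, the number of
the affine points with coordinates in `κ` is `q^e - ∑ β_l^e` (there is one point at infinity). -/
def IsCurveFrobenius (ℓ : ℕ) (d : 𝓞 K) (v : HeightOneSpectrum (𝓞 K)) (β : Fin (ℓ - 1) → ℂ) :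
    Prop :=
  (∀ l, ‖β l‖ = (Ideal.absNorm v.asIdeal : ℝ) ^ ((1 : ℝ) / 2)) ∧
  ∀ (κ : Type) [Field κ] [Finite κ] (φ : 𝓞 K →+* κ) (e : ℕ), RingHom.ker φ = v.asIdeal →
    Nat.card κ = Ideal.absNorm v.asIdeal ^ e →
    (affine ℓ κ (φ d) : ℂ) = (Ideal.absNorm v.asIdeal : ℂ) ^ e - ∑ l, β l ^ e

/-- The polynomials `B v` are the Euler factors of `L₂(Y × C, s)`, `C : d y² = x ^ ℓ + 1`, by the formula
of Künneth for a geometrically connected variety `Y`: `H²(Y × C) = H²(Y) + H²(C) + H¹(Y) ⊗ H¹(C)`.  At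
finitely many primes `B v` is an arbitrary polynomial, and no factor `1 / B_v(q_v^{-s})` has a pole at
`s = 2`. -/
def IsL2Curve (Y : Variety K) (ℓ : ℕ) (d : 𝓞 K) (B : HeightOneSpectrum (𝓞 K) → ℂ[X]) : Prop :=
  (∀ᶠ v in cofinite, ∃ (α₁ : Fin (Y.betti 1) → ℂ) (α₂ : Fin (Y.betti 2) → ℂ)
    (β : Fin (ℓ - 1) → ℂ), IsFrobenius Y.eqs Y.dim 1 v α₁ ∧ IsFrobenius Y.eqs Y.dim 2 v α₂ ∧
    IsCurveFrobenius ℓ d v β ∧
    ∀ z : ℂ, (B v).eval z = (∏ i, (1 - α₂ i * z)) * (1 - Ideal.absNorm v.asIdeal * z) *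
      ∏ i, ∏ l, (1 - α₁ i * β l * z)) ∧
  ∀ v, (B v).eval ((Ideal.absNorm v.asIdeal : ℂ) ^ (-(((2 : ℕ) : ℂ) / 2 + 1))) ≠ 0

end Pool.Agent.L7h11.JS
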