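import Pool.Agent.L7h11.JS.Bc
import Pool.Agent.L7h11.JS.Cdefs
import Pool.Agent.L7h11.GG.Main

/-!
# Products with the curves `d y² = x ^ ℓ + 1`: the theorem
-/

set_option autoImplicit false
set_option linter.unusedSectionVars false

namespace Pool.Agent.L7h11.JS

open Finset NumberField IsDedekindDomain Filter Topology Asymptotics Polynomial
open Pool.Agent.N172.HS
open Pool.Agent.L7h11.GG (nn nn_eq nn_nonneg abs_nn_le mean_nn nn_ge EH_cs EH_mono finite_zero lim_le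
  aut_pos)
open Pool.Agent.W353.EF (IsFrobenius IsEulerSystem LFun size)
open Pool.Agent.W353.PV (Eig)
open Pool.Agent.W353.TP (HX sysH LL LL_tendsto bdd_isLittleO push res lamS_sub push_abs_le
  final_ineq)
open Pool.Agent.W353.NF (vx)
open Pool.Agent.W540.BE (nm two_le_nm)
open Pool.Agent.Y149.Ord (HasOrder tendsto_size)
open scoped ComplexConjugate

section corr

variable {K F : Type} [Field K] [NumberField K] [Field F] [NumberField F] [Algebra K F]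

open Classical in
/-- the correlation with a function with a given bound for the mean square -/
theorem corr_fn' {T : HX K → ℝ} {N : ℝ} (hT : ∀ x, |T x| ≤ N) {W : HX K → ℝ} {b : ℝ}
    (hb : ∀ x, |W x| ≤ b) {g : ℝ} {Q : ℝ → ℝ} (hQ : (fun ε => Q ε - g * LL ε) =o[𝓝[>] 0] LL)
    (hWQ : ∀ᶠ ε : ℝ in 𝓝[>] 0, EH K ε (fun x => W x ^ 2) ≤ Q ε) {m : ℕ} (hm : 0 < m)
    (hs : ∀ x : HX K, nn K F x < m → W x = 0) {z : ℝ → ℝ}
    (hz : (fun ε => z ε * LL ε - EH K ε (fun x => T x * W x)) =o[𝓝[>] 0] LL) {η : ℝ}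
    (hη : 0 < η) : ∀ᶠ ε : ℝ in 𝓝[>] 0, z ε ^ 2 ≤ N ^ 2 / m * g + η := by
  have hN : 0 ≤ N := (abs_nonneg _).trans (hT ((sysH K).nonempty.some))
  set T' : HX K → ℝ := fun x => if (m : ℝ) ≤ nn K F x then T x else 0 with hT'
  have hT'b : ∀ x, |T' x| ≤ N := by
    intro x
    rw [hT']
    simp only
    split_ifs
    · exact hT x
    · rw [abs_zero]; exact hN
  have hTT : (fun x => T x * W x) = fun x => T' x * W x := by
    funext x
    rw [hT']
    simp only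
    split_ifs with h
    · rfl
    · rw [hs x (not_le.1 h), mul_zero, mul_zero]
  have hm' : (0 : ℝ) < m := Nat.cast_pos.2 hm
  have h2 : ∀ᶠ ε : ℝ in 𝓝[>] 0, (EH K ε (fun x => T' x * W x)) ^ 2 ≤
      N ^ 2 / m * (EH K ε (nn K F) * Q ε) := by
    filter_upwards [self_mem_nhdsWithin, hWQ] with ε hε h3
    have hε' : (0 : ℝ) < ε := hε
    refine (EH_cs hT'b hb hε').trans ?_
    have d1 : ∀ x, |T' x ^ 2| ≤ N ^ 2 := fun x => by
      rw [abs_pow]
      exact pow_le_pow_left₀ (abs_nonneg _) (hT'b x) 2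
    have d3 : ∀ x, |N ^ 2 / m * nn K F x| ≤ N ^ 2 / m * (Module.finrank ℚ F * 1) := fun x => by
      rw [abs_mul, abs_of_nonneg (by positivity : 0 ≤ N ^ 2 / m)]
      exact mul_le_mul_of_nonneg_left (abs_nn_le K F x) (by positivity)
    have e1 : EH K ε (fun x => T' x ^ 2) ≤ N ^ 2 / m * EH K ε (nn K F) := by
      rw [← EH_const_mul]
      refine EH_mono hε' d1 d3 fun x => ?_
      rw [hT']
      simp only
      split_ifs with h
      · have h3 : T x ^ 2 ≤ N ^ 2 := by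
          rw [← sq_abs]
          exact pow_le_pow_left₀ (abs_nonneg _) (hT x) 2
        calc T x ^ 2 ≤ N ^ 2 := h3
          _ = N ^ 2 / m * m := by field_simp
          _ ≤ N ^ 2 / m * nn K F x := mul_le_mul_of_nonneg_left h (by positivity)
      · have := nn_nonneg K F x
        rw [zero_pow two_ne_zero]
        positivity
    have e3 : 0 ≤ EH K ε (fun x => W x ^ 2) := EH_nonneg (fun x => sq_nonneg _) ε
    have e4 : 0 ≤ EH K ε (nn K F) := EH_nonneg (fun x => nn_nonneg K F x) ε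
    calc EH K ε (fun x => T' x ^ 2) * EH K ε (fun x => W x ^ 2) ≤
        (N ^ 2 / m * EH K ε (nn K F)) * Q ε :=
          mul_le_mul e1 h3 e3 (by positivity)
      _ = _ := by ring
  rw [hTT] at hz
  have h4 := final_ineq hz h2 (mean_nn K F) hQ hη
  filter_upwards [h4, LL_tendsto.eventually_gt_atTop 0] with ε h5 h6
  rwa [mul_div_cancel_right₀ _ h6.ne'] at h5

end corr

section count

/-- the number of points over the field with `p` elements -/
theorem affine_eq (ℓ p : ℕ) [hp : Fact p.Prime] (h2 : p ≠ 2) {d : ZMod p} (hd : d ≠ 0) :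
    ((affine ℓ (ZMod p) d : ℕ) : ℤ) = p + quadraticChar (ZMod p) d *
      ∑ a : ZMod p, quadraticChar (ZMod p) (a ^ ℓ + 1) := by
  classical
  have hch : ringChar (ZMod p) ≠ 2 := by rwa [ZMod.ringChar_zmod_n]
  unfold affine
  rw [Nat.card_eq_fintype_card]
  have e1 : Fintype.card {P : ZMod p × ZMod p // d * P.2 ^ 2 = P.1 ^ ℓ + 1} =
      ∑ a : ZMod p, (univ.filter fun y : ZMod p => d * y ^ 2 = a ^ ℓ + 1).card := by
    rw [Fintype.card_subtype, card_eq_sum_card_fiberwise (f := Prod.fst) (t := univ)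
      (fun _ _ => mem_coe.2 (mem_univ _))]
    refine sum_congr rfl fun a _ => ?_
    refine card_bij (fun P _ => P.2) ?_ ?_ ?_
    · intro P hP
      rw [mem_filter, mem_filter] at hP
      rw [mem_filter]
      refine ⟨mem_univ _, ?_⟩
      rw [← hP.2]
      exact hP.1.2
    · intro P hP P' hP' h
      rw [mem_filter] at hP hP'
      exact Prod.ext (hP.2.trans hP'.2.symm) h
    · intro y hy
      rw [mem_filter] at hy
      exact ⟨(a, y), by rw [mem_filter, mem_filter]; exact ⟨⟨mem_univ _, hy.2⟩, rfl⟩, rfl⟩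
  have e2 : ∀ a : ZMod p, (((univ.filter fun y : ZMod p => d * y ^ 2 = a ^ ℓ + 1).card : ℕ) : ℤ) =
      1 + quadraticChar (ZMod p) d * quadraticChar (ZMod p) (a ^ ℓ + 1) := by
    intro a
    have h3 := quadraticChar_card_sqrts hch ((a ^ ℓ + 1) / d)
    have h4 : {x : ZMod p | x ^ 2 = (a ^ ℓ + 1) / d}.toFinset =
        univ.filter fun y : ZMod p => d * y ^ 2 = a ^ ℓ + 1 := by
      ext y
      rw [Set.mem_toFinset, Set.mem_ofPred_eq, mem_filter, eq_div_iff hd, mul_comm]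
      exact ⟨fun h => ⟨mem_univ _, h⟩, fun h => h.2⟩
    rw [h4] at h3
    rw [h3, div_eq_mul_inv, map_mul, add_comm]
    have h5 : quadraticChar (ZMod p) d⁻¹ = quadraticChar (ZMod p) d := by
      have h6 := quadraticChar_sq_one (F := ZMod p) hd
      have h7 : quadraticChar (ZMod p) d⁻¹ * quadraticChar (ZMod p) d = 1 := by
        rw [← map_mul, inv_mul_cancel₀ hd, map_one]
      have h8 : quadraticChar (ZMod p) d ≠ 0 := by
        intro h9
        rw [h9] at h6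
        norm_num at h6
      apply mul_right_cancel₀ h8
      rw [h7, ← sq, h6]
    rw [h5]
    ring
  rw [e1, Nat.cast_sum, sum_congr rfl fun a _ => e2 a, sum_add_distrib, sum_const, card_univ,
    ZMod.card, ← mul_sum]
  simp

theorem cu_zero {ℓ p : ℕ} [hp : Fact p.Prime] (h2 : p ≠ 2) (hℓ : ℓ.Prime) (h : ¬ ℓ ∣ p - 1) :
    cu ℓ p = 0 := by
  have h1 := sum_curve_zero (O := ℤ) h2 ((Nat.Prime.coprime_iff_not_dvd hℓ).2 h) hℓ.pos
  unfold cu
  simp only [qc_apply, Int.cast_id] at h1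
  rw [h1]
  simp

end count

section curve

variable {K : Type} [Field K] [NumberField K]

/-- the residue field count -/
noncomputable def rv (ℓ : ℕ) (d : 𝓞 K) (v : HeightOneSpectrum (𝓞 K)) : ℝ :=
  haveI : v.asIdeal.IsMaximal := v.isMaximal
  letI : Field (𝓞 K ⧸ v.asIdeal) := Ideal.Quotient.field v.asIdeal
  ((nm K v : ℝ) - affine ℓ (𝓞 K ⧸ v.asIdeal) (Ideal.Quotient.mk v.asIdeal d)) /
    Real.sqrt (nm K v)

open Classical in
/-- the normalised trace of the Frobenius at `v` on `H¹` of the curve -/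
noncomputable def wv (ℓ : ℕ) (d : 𝓞 K) (v : HeightOneSpectrum (𝓞 K)) : ℝ :=
  if |rv ℓ d v| ≤ ℓ then rv ℓ d v else 0

theorem abs_wv (ℓ : ℕ) (d : 𝓞 K) (v : HeightOneSpectrum (𝓞 K)) : |wv ℓ d v| ≤ ℓ := by
  unfold wv
  split_ifs with h
  · exact h
  · rw [abs_zero]; exact Nat.cast_nonneg _

theorem nm_pos (v : HeightOneSpectrum (𝓞 K)) : (0 : ℝ) < nm K v := by
  have := two_le_nm v
  exact_mod_cast (by omega : 0 < nm K v)

theorem cpow_half (v : HeightOneSpectrum (𝓞 K)) : ((nm K v : ℕ) : ℂ) ^ (-(((1 : ℕ) : ℂ) / 2)) =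
    (((Real.sqrt (nm K v))⁻¹ : ℝ) : ℂ) := by
  rw [Real.sqrt_eq_rpow, ← Real.rpow_neg (Nat.cast_nonneg _),
    Complex.ofReal_cpow (Nat.cast_nonneg _)]
  push_cast
  rfl

theorem wv_eq {ℓ : ℕ} {d : 𝓞 K} {v : HeightOneSpectrum (𝓞 K)} {β : Fin (ℓ - 1) → ℂ}
    (h : IsCurveFrobenius ℓ d v β) :
    ((wv ℓ d v : ℝ) : ℂ) = (∑ l, β l) * ((nm K v : ℕ) : ℂ) ^ (-(((1 : ℕ) : ℂ) / 2)) := by
  have hm : v.asIdeal.IsMaximal := v.isMaximal
  let _ : Field (𝓞 K ⧸ v.asIdeal) := Ideal.Quotient.field v.asIdeal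
  have hfin : Finite (𝓞 K ⧸ v.asIdeal) := Ideal.finiteQuotientOfFreeOfNeBot _ v.ne_bot
  have h1 := h.2 (𝓞 K ⧸ v.asIdeal) (Ideal.Quotient.mk v.asIdeal) 1 Ideal.mk_ker (by
    rw [pow_one, Ideal.absNorm_apply, Submodule.cardQuot_apply])
  simp only [pow_one] at h1
  have h2 : ∑ l, β l = ((((nm K v : ℕ) : ℝ) -
      affine ℓ (𝓞 K ⧸ v.asIdeal) (Ideal.Quotient.mk v.asIdeal d) : ℝ) : ℂ) := by
    push_cast
    rw [h1]
    change ∑ l, β l = ((Ideal.absNorm v.asIdeal : ℕ) : ℂ) - _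
    ring
  have hrv : rv ℓ d v = (((nm K v : ℕ) : ℝ) -
      affine ℓ (𝓞 K ⧸ v.asIdeal) (Ideal.Quotient.mk v.asIdeal d)) / Real.sqrt (nm K v) := rfl
  have hs : 0 < Real.sqrt (nm K v) := Real.sqrt_pos.2 (nm_pos v)
  have h3 : |rv ℓ d v| ≤ ℓ := by
    have h4 : ‖∑ l, β l‖ ≤ ℓ * Real.sqrt (nm K v) := by
      refine (norm_sum_le _ _).trans ?_
      rw [sum_congr rfl fun l _ => h.1 l, sum_const, card_univ, Fintype.card_fin, nsmul_eq_mul,
        ← Real.sqrt_eq_rpow]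
      refine mul_le_mul_of_nonneg_right ?_ (Real.sqrt_nonneg _)
      exact_mod_cast Nat.sub_le ℓ 1
    rw [h2, Complex.norm_real, Real.norm_eq_abs] at h4
    rw [hrv, abs_div, abs_of_pos hs, div_le_iff₀ hs]
    exact h4
  unfold wv
  rw [if_pos h3, hrv, h2, cpow_half, ← Complex.ofReal_mul, div_eq_mul_inv]

theorem wv_HX {ℓ : ℕ} {d : 𝓞 K} {x : HX K} {β : Fin (ℓ - 1) → ℂ}
    (h : IsCurveFrobenius ℓ d (vx x) β) (h2 : (x.1 : ℕ) ≠ 2) (hd : x.2 d ≠ 0) :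
    wv ℓ d (vx x) ^ 2 = cu ℓ (x.1 : ℕ) ^ 2 := by
  have h1 := h.2 (ZMod (x.1 : ℕ)) x.2 1 rfl (by rw [Nat.card_zmod, pow_one, absNorm_vx])
  simp only [pow_one] at h1
  have hN : (nm K (vx x) : ℕ) = (x.1 : ℕ) := absNorm_vx x
  have h3 : ((Ideal.absNorm (vx x).asIdeal : ℕ) : ℂ) = ((x.1 : ℕ) : ℂ) := by rw [absNorm_vx]
  rw [h3] at h1
  have h4 := affine_eq ℓ (x.1 : ℕ) h2 hd
  have h5 : ∑ l, β l = ((-(quadraticChar (ZMod (x.1 : ℕ)) (x.2 d) *
      ∑ a : ZMod (x.1 : ℕ), quadraticChar (ZMod (x.1 : ℕ)) (a ^ ℓ + 1)) : ℤ) : ℂ) := by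
    have h6 : ((affine ℓ (ZMod (x.1 : ℕ)) (x.2 d) : ℕ) : ℂ) =
        (((x.1 : ℕ) + quadraticChar (ZMod (x.1 : ℕ)) (x.2 d) *
      ∑ a : ZMod (x.1 : ℕ), quadraticChar (ZMod (x.1 : ℕ)) (a ^ ℓ + 1) : ℤ) : ℂ) := by
      rw [← h4]
      rw [Int.cast_natCast]
    rw [h6] at h1
    push_cast at h1 ⊢
    linear_combination h1
  have h6 := wv_eq h
  rw [cpow_half, h5, hN] at h6
  have h7 : wv ℓ d (vx x) = ((-(quadraticChar (ZMod (x.1 : ℕ)) (x.2 d) *
      ∑ a : ZMod (x.1 : ℕ), quadraticChar (ZMod (x.1 : ℕ)) (a ^ ℓ + 1)) : ℤ) : ℝ) *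
        (Real.sqrt ((x.1 : ℕ) : ℝ))⁻¹ := by
    apply Complex.ofReal_injective
    rw [h6]
    push_cast
    ring
  have h8 : ((quadraticChar (ZMod (x.1 : ℕ)) (x.2 d) : ℤ) : ℝ) ^ 2 = 1 := by
    have := quadraticChar_sq_one (F := ZMod (x.1 : ℕ)) hd
    exact_mod_cast this
  rw [h7]
  unfold cu
  rw [div_eq_mul_inv, mul_pow, mul_pow]
  congr 1
  push_cast
  rw [neg_sq, mul_pow, h8, one_mul]

/-- **The size of the L-function of the product with a curve.** -/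
theorem curve_size {Y : Variety K} (hY : 1 ≤ Y.dim) {ℓ : ℕ} {d : 𝓞 K}
    {B : HeightOneSpectrum (𝓞 K) → ℂ[X]} (hB : IsL2Curve Y ℓ d B) :
    (∀ᶠ ε : ℝ in 𝓝[>] 0, LFun B (((2 : ℕ) : ℂ) / 2 + 1 + ε) ≠ 0) ∧
    (fun ε => size 2 B ε * LL ε - EH K ε (fun x => TV Y 2 (vx x) + 1 +
      TV Y 1 (vx x) * wv ℓ d (vx x))) =o[𝓝[>] 0] LL := by
  classical
  obtain ⟨hM, hB0⟩ := hB
  refine size_H (K := K)
    (ι := Fin (Y.betti 2) ⊕ Unit ⊕ (Fin (Y.betti 1) × Fin (ℓ - 1)))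
    (i := 2) B (fun v => TV Y 2 v + 1 + TV Y 1 v * wv ℓ d v) ?_ hB0
    (D := Y.betti 2 + 1 + Y.betti 1 * ℓ) (fun x => ?_)
  · filter_upwards [hM] with v hv
    obtain ⟨α₁, α₂, β, h1, h2, h3, h5⟩ := hv
    have hq := nm_pos v
    have hq' : ((nm K v : ℕ) : ℂ) ≠ 0 := by exact_mod_cast hq.ne'
    refine ⟨Sum.elim α₂ (Sum.elim (fun _ => ((nm K v : ℕ) : ℂ)) fun l => α₁ l.1 * β l.2),
      fun l => ?_, ?_, fun z => ?_⟩
    · rcases l with l | l | l
      · exact Eig.norm (X := Y.eqs) (d := Y.dim) h2 l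
      · simp only [Sum.elim_inr, Sum.elim_inl]
        rw [Complex.norm_natCast]
        norm_num
      · have e1 : ‖α₁ l.1‖ = (nm K v : ℝ) ^ (((1 : ℕ) : ℝ) / 2) :=
          Eig.norm (X := Y.eqs) (d := Y.dim) h1 l.1
        have e2 : ‖β l.2‖ = (nm K v : ℝ) ^ ((1 : ℝ) / 2) := h3.1 l.2
        simp only [Sum.elim_inr]
        rw [norm_mul, e1, e2, ← Real.rpow_add hq]
        congr 1
        norm_num
    · rw [Fintype.sum_sum_type, Fintype.sum_sum_type]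
      simp only [Sum.elim_inl, Sum.elim_inr, univ_unique, sum_singleton]
      have e1 := TV_eq Y (i := 2) (by omega) h2
      have e3 := TV_eq Y (i := 1) (by omega) h1
      have e4 := wv_eq h3
      have e5 : ∑ l : Fin (Y.betti 1) × Fin (ℓ - 1), α₁ l.1 * β l.2 =
          (∑ j, α₁ j) * ∑ l, β l := by
        rw [sum_mul_sum, ← univ_product_univ, sum_product]
      have e6 : ((nm K v : ℕ) : ℂ) ^ (-(((2 : ℕ) : ℂ) / 2)) =
          ((nm K v : ℕ) : ℂ) ^ (-(((1 : ℕ) : ℂ) / 2)) *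
            ((nm K v : ℕ) : ℂ) ^ (-(((1 : ℕ) : ℂ) / 2)) := by
        rw [← Complex.cpow_add _ _ hq']
        congr 1
        push_cast
        ring
      have e8 : ((nm K v : ℕ) : ℂ) * ((nm K v : ℕ) : ℂ) ^ (-(((2 : ℕ) : ℂ) / 2)) = 1 := by
        have : (-(((2 : ℕ) : ℂ) / 2)) = -1 := by push_cast; ring
        rw [this, Complex.cpow_neg_one, mul_inv_cancel₀ hq']
      have e7 : ((TV Y 2 v + 1 + TV Y 1 v * wv ℓ d v : ℝ) : ℂ) =
          (∑ j, α₂ j + (((nm K v : ℕ) : ℂ) + ∑ l : Fin (Y.betti 1) × Fin (ℓ - 1),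
            α₁ l.1 * β l.2)) * ((nm K v : ℕ) : ℂ) ^ (-(((2 : ℕ) : ℂ) / 2)) := by
        rw [Complex.ofReal_add, Complex.ofReal_add, Complex.ofReal_mul, e1, e3, e4, e5,
          Complex.ofReal_one, ← e8, e6]
        ring
      rw [← e7, Complex.ofReal_re]
    · rw [h5, Fintype.prod_sum_type, Fintype.prod_sum_type]
      simp only [Sum.elim_inl, Sum.elim_inr, univ_unique, prod_singleton]
      rw [← univ_product_univ, prod_product, mul_assoc]
      rfl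
  · refine (abs_add_le _ _).trans (add_le_add ((abs_add_le _ _).trans
      (add_le_add (abs_TV Y 2 _) (by rw [abs_one]))) ?_)
    rw [abs_mul]
    exact mul_le_mul (abs_TV Y 1 _) (abs_wv ℓ d _) (abs_nonneg _) (Nat.cast_nonneg _)

variable {ℓ : ℕ} [hℓ : Fact ℓ.Prime] {F : Type} [Field F] [NumberField F] [Algebra K F]
  [hF : IsCyclotomicExtension {ℓ} K F]

include hF in
/-- the pointwise inequality -/
theorem pointwise (hodd : Odd ℓ) {d : 𝓞 K} (hd : d ≠ 0)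
    (hC : ∀ᶠ v : HeightOneSpectrum (𝓞 K) in cofinite, ∃ β : Fin (ℓ - 1) → ℂ,
      IsCurveFrobenius ℓ d v β) {f : HX F → ℂ}
    (hf : ∀ y : HX F, (y.1 : ℕ) ≠ ℓ → (y.1 : ℕ) ≠ 2 → f y = ((-cu ℓ (y.1 : ℕ) : ℝ) : ℂ)) :
    ∀ᶠ x : HX K in cofinite, (nn K F x < Nat.card (F ≃ₐ[K] F) → wv ℓ d (vx x) = 0) ∧
      wv ℓ d (vx x) ^ 2 ≤ (Nat.card (F ≃ₐ[K] F) : ℝ)⁻¹ *
        push K (fun y : HX F => (f y * conj (f y)).re) x := by
  classical
  have hn : ((2 * ℓ : ℕ) : 𝓞 K) ≠ 0 := by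
    exact_mod_cast (Nat.mul_pos two_pos hℓ.out.pos).ne'
  have h1 : ∀ᶠ x : HX K in cofinite, x.2 ((2 * ℓ : ℕ) : 𝓞 K) ≠ 0 := by
    rw [Filter.eventually_cofinite]
    exact (finite_zero (F := K) hn).subset fun x hx => not_not.1 hx
  have h2 : ∀ᶠ x : HX K in cofinite, x.2 d ≠ 0 := by
    rw [Filter.eventually_cofinite]
    exact (finite_zero (F := K) hd).subset fun x hx => not_not.1 hx
  filter_upwards [h1, h2, eventually_HX hC, exists_over (ℓ := ℓ) (K := K) (F := F),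
    nn_ge (K := K) (F := F)] with x hx1 hx2 hx3 hx4 hx5
  have hp : Fact (x.1 : ℕ).Prime := ⟨x.1.2⟩
  rw [map_natCast, Ne, ZMod.natCast_eq_zero_iff, x.1.2.dvd_mul, not_or] at hx1
  have hp2 : (x.1 : ℕ) ≠ 2 := fun h => hx1.1 (by rw [h])
  have hpℓ : (x.1 : ℕ) ≠ ℓ := fun h => hx1.2 (by rw [h])
  obtain ⟨β, hβ⟩ := hx3
  have hw := wv_HX hβ hp2 hx2
  obtain ⟨S, hS, hn⟩ := nn_eq K F x
  -- the sum over the primes above
  have hpush : push K (fun y : HX F => (f y * conj (f y)).re) x =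
      nn K F x * cu ℓ (x.1 : ℕ) ^ 2 := by
    have e1 : ∀ ψ : 𝓞 F →+* ZMod (x.1 : ℕ),
        (fun y : HX F => (f y * conj (f y)).re) ⟨x.1, ψ⟩ = cu ℓ (x.1 : ℕ) ^ 2 := by
      intro ψ
      simp only
      rw [hf ⟨x.1, ψ⟩ hpℓ hp2, Complex.conj_ofReal, ← Complex.ofReal_mul, Complex.ofReal_re]
      ring
    unfold nn push
    rw [sum_congr rfl fun ψ _ => e1 ψ, sum_const, sum_const, nsmul_eq_mul, nsmul_eq_mul, mul_one]
  rw [hpush, hw]
  have hm : (0 : ℝ) < Nat.card (F ≃ₐ[K] F) := Nat.cast_pos.2 (aut_pos K F)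
  by_cases hdvd : ℓ ∣ (x.1 : ℕ) - 1
  · obtain ⟨ψ, hψ⟩ := hx4 hdvd
    have hmem := (hS ψ).2 hψ
    have hne : nn K F x ≠ 0 := by
      rw [hn, Nat.cast_ne_zero, Finset.card_ne_zero]
      exact ⟨ψ, hmem⟩
    have hge : (Nat.card (F ≃ₐ[K] F) : ℝ) ≤ nn K F x := by
      by_contra hcon
      exact hne (hx5 (not_le.1 hcon))
    refine ⟨fun h => absurd h (not_lt.2 hge), ?_⟩
    rw [← mul_assoc]
    refine le_mul_of_one_le_left (sq_nonneg _) ?_
    rw [inv_mul_eq_div, le_div_iff₀ hm, one_mul]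
    exact hge
  · have h0 := cu_zero hp2 hℓ.out hdvd
    rw [h0] at hw ⊢
    refine ⟨fun _ => ?_, ?_⟩
    · rw [zero_pow two_ne_zero] at hw
      exact pow_eq_zero_iff two_ne_zero |>.1 hw
    · rw [zero_pow two_ne_zero, mul_zero, mul_zero]

open Classical in
include hF in
/-- **The theorem.** -/
theorem curve_bound (hodd : Odd ℓ) {E : Type} [Field E] [NumberField E]
    [hE : IsCyclotomicExtension {ℓ} ℚ E] (i' : E →+* F) {Y : Variety K} (hY : 1 ≤ Y.dim)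
    {d : 𝓞 K} (hd : d ≠ 0) {A B : HeightOneSpectrum (𝓞 K) → ℂ[X]}
    (hA : IsEulerSystem Y.eqs Y.dim 2 (Y.betti 2) A) (hB : IsL2Curve Y ℓ d B) {η : ℝ}
    (hη : 0 < η) : ∀ᶠ ε : ℝ in 𝓝[>] 0, (size 2 B ε - size 2 A ε - 1) ^ 2 ≤
      (Y.betti 1 : ℝ) ^ 2 * (ℓ - 1) / (Nat.card (F ≃ₐ[K] F) : ℝ) ^ 2 + η := by
  obtain ⟨f, ⟨b, hb0, hb⟩, hfg, hf⟩ := mean_sq_F (ℓ := ℓ) (E := E) hodd i'
  have hC : ∀ᶠ v : HeightOneSpectrum (𝓞 K) in cofinite, ∃ β : Fin (ℓ - 1) → ℂ,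
      IsCurveFrobenius ℓ d v β := by
    filter_upwards [hB.1] with v hv
    obtain ⟨_, _, β, _, _, h, _⟩ := hv
    exact ⟨β, h⟩
  have hpt := pointwise (F := F) hodd hd hC hf
  set m : ℕ := Nat.card (F ≃ₐ[K] F) with hm
  have hm0 : 0 < m := aut_pos K F
  have hm' : (0 : ℝ) < m := Nat.cast_pos.2 hm0
  have hbb : ∀ y : HX F, |(f y * conj (f y)).re| ≤ b * b := fun y => by
    refine (Complex.abs_re_le_norm _).trans ?_
    rw [norm_mul, Complex.norm_conj]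
    exact mul_le_mul (hb y) (hb y) (norm_nonneg _) hb0
  set P : HX K → ℝ := push K (fun y : HX F => (f y * conj (f y)).re) with hP
  have hPb : ∀ x, |P x| ≤ Module.finrank ℚ F * (b * b) := fun x => push_abs_le hbb x
  have hP0 : ∀ x, 0 ≤ P x := by
    have h0 : ∀ y : HX F, 0 ≤ (f y * conj (f y)).re := fun y => by
      rw [Complex.mul_conj, Complex.ofReal_re]
      exact Complex.normSq_nonneg _
    intro x
    rw [hP]
    unfold push
    exact sum_nonneg fun ψ _ => h0 _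
  set W : HX K → ℝ := fun x => if (nn K F x < m → wv ℓ d (vx x) = 0) ∧
    wv ℓ d (vx x) ^ 2 ≤ (m : ℝ)⁻¹ * P x then wv ℓ d (vx x) else 0 with hW
  have hWb : ∀ x, |W x| ≤ ℓ := by
    intro x
    rw [hW]
    simp only
    split_ifs
    · exact abs_wv ℓ d _
    · rw [abs_zero]; exact Nat.cast_nonneg _
  have hWs : ∀ x : HX K, nn K F x < m → W x = 0 := by
    intro x hx
    rw [hW]
    simp only
    split_ifs with h
    · exact h.1 hx
    · rfl
  have hWP : ∀ x, W x ^ 2 ≤ (m : ℝ)⁻¹ * P x := by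
    intro x
    rw [hW]
    simp only
    split_ifs with h
    · exact h.2
    · rw [zero_pow two_ne_zero]
      exact mul_nonneg (by positivity) (hP0 x)
  -- the mean square
  have hQ : (fun ε => (m : ℝ)⁻¹ * EH F ε (fun y => (f y * conj (f y)).re) -
      ((ℓ - 1 : ℝ) / m) * LL ε) =o[𝓝[>] 0] LL := by
    refine (hfg.const_mul_left (m : ℝ)⁻¹).congr_left fun ε => ?_
    ring
  have hWQ : ∀ᶠ ε : ℝ in 𝓝[>] 0, EH K ε (fun x => W x ^ 2) ≤
      (m : ℝ)⁻¹ * EH F ε (fun y => (f y * conj (f y)).re) := by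
    filter_upwards [self_mem_nhdsWithin] with ε hε
    have hε' : (0 : ℝ) < ε := hε
    rw [EH_push' (K := K) hε' hbb, ← EH_const_mul]
    refine EH_mono hε' (B := (ℓ : ℝ) ^ 2) (fun x => ?_)
      (B' := (m : ℝ)⁻¹ * (Module.finrank ℚ F * (b * b))) (fun x => ?_) hWP
    · rw [abs_pow]
      exact pow_le_pow_left₀ (abs_nonneg _) (hWb x) 2
    · rw [abs_mul, abs_of_pos (inv_pos.2 hm')]
      exact mul_le_mul_of_nonneg_left (hPb x) (inv_pos.2 hm').le
  -- the defect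
  have h0 := (curve_size hY hB).2
  have h1 := euler_size (a := 2) (by omega) hA
  have h2 := lamS_sub (sysH K)
  have b0 : ∀ x : HX K, |TV Y 1 (vx x) * wv ℓ d (vx x)| ≤ Y.betti 1 * ℓ := fun x => by
    rw [abs_mul]
    exact mul_le_mul (abs_TV Y 1 _) (abs_wv ℓ d _) (abs_nonneg _) (Nat.cast_nonneg _)
  have b1 : ∀ x : HX K, |TV Y 1 (vx x) * W x| ≤ Y.betti 1 * ℓ := fun x => by
    rw [abs_mul]
    exact mul_le_mul (abs_TV Y 1 _) (hWb x) (abs_nonneg _) (Nat.cast_nonneg _)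
  have h3 := EH_congr (K := K) (φ := fun x => TV Y 1 (vx x) * wv ℓ d (vx x))
    (φ' := fun x => TV Y 1 (vx x) * W x) (by
      filter_upwards [hpt] with x hx
      rw [hW]
      simp only
      rw [if_pos hx]) b0 b1
  have hz : (fun ε => (size 2 B ε - size 2 A ε - 1) * LL ε -
      EH K ε (fun x => TV Y 1 (vx x) * W x)) =o[𝓝[>] 0] LL := by
    refine (((h0.sub h1).add h2).add h3).congr' ?_ (EventuallyEq.refl _ _)
    filter_upwards [self_mem_nhdsWithin] with ε hε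
    have hε' : (0 : ℝ) < ε := hε
    have b2 : ∀ x : HX K, |TV Y 2 (vx x) + 1| ≤ Y.betti 2 + 1 := fun x =>
      (abs_add_le _ _).trans (add_le_add (abs_TV Y 2 _) (by rw [abs_one]))
    have e1 : EH K ε (fun x => TV Y 2 (vx x) + 1 + TV Y 1 (vx x) * wv ℓ d (vx x)) =
        EH K ε (fun x => TV Y 2 (vx x)) + (sysH K).lam ε +
          EH K ε (fun x => TV Y 1 (vx x) * wv ℓ d (vx x)) := by
      rw [EH_add hε' b2 b0, EH_add hε' (fun x => abs_TV Y 2 _) (B' := 1)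
        (fun x => by rw [abs_one]), EH_one]
    rw [e1]
    ring
  have h4 := corr_fn' (F := F) (fun x => abs_TV Y 1 (vx x)) hWb hQ hWQ hm0 hWs hz hη
  filter_upwards [h4] with ε h5
  refine h5.trans (le_of_eq ?_)
  field_simp

end curve

end Pool.Agent.L7h11.JS
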