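import Pool.Agent.L7h11.JS.Jac2
import Pool.Agent.N172.HS.Mn

/-!
# The Stickelberger relation at the primes of degree one
-/

set_option autoImplicit false
set_option linter.unusedSectionVars false

namespace Pool.Agent.L7h11.JS

open Finset NumberField IsDedekindDomain
open Pool.Agent.W353.TP (HX)
open Pool.Agent.W353.NF (vx)
open Pool.Agent.N172.HS (absNorm_vx)
open Pool.Agent.H921R2.TatePole (hom_ext_of_ker)

section act

variable {E : Type} [Field E] [NumberField E]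

/-- the action on the integers -/
noncomputable def act (g : Gal(E/ℚ)) : 𝓞 E →+* 𝓞 E := RingOfIntegers.mapRingHom (g : E →+* E)

theorem act_coe (g : Gal(E/ℚ)) (x : 𝓞 E) : ((act g x : 𝓞 E) : E) = g (x : E) := rfl

theorem act_mul (g h : Gal(E/ℚ)) (x : 𝓞 E) : act (g * h) x = act g (act h x) := rfl

theorem act_one (x : 𝓞 E) : act (1 : Gal(E/ℚ)) x = x := RingOfIntegers.ext rfl

theorem act_inv_act (g : Gal(E/ℚ)) (x : 𝓞 E) : act g⁻¹ (act g x) = x := by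
  rw [← act_mul, inv_mul_cancel, act_one]

theorem act_act_inv (g : Gal(E/ℚ)) (x : 𝓞 E) : act g (act g⁻¹ x) = x := by
  rw [← act_mul, mul_inv_cancel, act_one]

theorem act_injective (g : Gal(E/ℚ)) : Function.Injective (act g) := fun x y h => by
  rw [← act_inv_act g x, h, act_inv_act]

/-- the embeddings of the integers -/
noncomputable def emb (ι : E →+* ℂ) : 𝓞 E →+* ℂ := ι.comp (algebraMap (𝓞 E) E)

theorem emb_injective (ι : E →+* ℂ) : Function.Injective (emb ι) :=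
  ι.injective.comp RingOfIntegers.coe_injective

variable {p : ℕ} [Fact p.Prime]

theorem map_ker (g : Gal(E/ℚ)) (φ : 𝓞 E →+* ZMod p) :
    Ideal.map (act g) (RingHom.ker φ) = RingHom.ker (φ.comp (act g⁻¹)) := by
  apply le_antisymm
  · rw [Ideal.map_le_iff_le_comap]
    intro x hx
    rw [Ideal.mem_comap, RingHom.mem_ker, RingHom.comp_apply, act_inv_act]
    exact hx
  · intro y hy
    rw [RingHom.mem_ker, RingHom.comp_apply] at hy
    rw [← act_act_inv g y]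
    exact Ideal.mem_map_of_mem _ hy

theorem absNorm_ker (φ : 𝓞 E →+* ZMod p) : Ideal.absNorm (RingHom.ker φ) = p :=
  absNorm_vx (⟨⟨p, Fact.out⟩, φ⟩ : HX E)

theorem ker_maximal (φ : 𝓞 E →+* ZMod p) : (RingHom.ker φ).IsMaximal :=
  (vx (⟨⟨p, Fact.out⟩, φ⟩ : HX E)).isMaximal

/-- the norm as a product of absolute values -/
theorem absNorm_span_eq [IsGalois ℚ E] (ι : E →+* ℂ) (x : 𝓞 E) :
    (Ideal.absNorm (Ideal.span {x}) : ℝ) = ∏ g : Gal(E/ℚ), ‖emb ι (act g x)‖ := by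
  rw [Ideal.absNorm_span_singleton, ← norm_prod]
  have h1 := Algebra.norm_eq_prod_automorphisms ℚ (x : E)
  have h2 : (ι (algebraMap ℚ E (Algebra.norm ℚ (x : E)))) = ∏ g : Gal(E/ℚ), emb ι (act g x) := by
    rw [h1, map_prod]
    rfl
  rw [← h2, ← Algebra.coe_norm_int]
  simp only [map_intCast, Complex.norm_intCast]
  rw [Nat.cast_natAbs, Int.cast_abs]

end act

section cyc

variable (ℓ : ℕ) [hℓ : Fact ℓ.Prime] (E : Type) [Field E] [NumberField E]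
  [hE : IsCyclotomicExtension {ℓ} ℚ E]

/-- the root of unity -/
noncomputable def ze : 𝓞 E := (IsCyclotomicExtension.zeta_spec ℓ ℚ E).toInteger

theorem ze_prim : IsPrimitiveRoot (ze ℓ E) ℓ :=
  (IsCyclotomicExtension.zeta_spec ℓ ℚ E).toInteger_isPrimitiveRoot

theorem ze_pow : (ze ℓ E) ^ ℓ = 1 := (ze_prim ℓ E).pow_eq_one

/-- the cyclotomic character -/
noncomputable def ex : Gal(E/ℚ) ≃* (ZMod ℓ)ˣ :=
  IsCyclotomicExtension.autEquivPow E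
    (Polynomial.cyclotomic.irreducible_rat hℓ.out.pos)

theorem act_ze (g : Gal(E/ℚ)) : act g (ze ℓ E) = ze ℓ E ^ ((ex ℓ E g : (ZMod ℓ)ˣ) : ZMod ℓ).val := by
  apply RingOfIntegers.ext
  have h := (IsCyclotomicExtension.zeta_spec ℓ ℚ E).autToPow_spec ℚ g
  exact h.symm

include hℓ hE in
theorem isGalois : IsGalois ℚ E := IsCyclotomicExtension.isGalois ({ℓ} : Set ℕ) ℚ E

variable {E} {p : ℕ} [hp : Fact p.Prime]

theorem map_ze_prim (hpℓ : p ≠ ℓ) (φ : 𝓞 E →+* ZMod p) : IsPrimitiveRoot (φ (ze ℓ E)) ℓ := by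
  have h1 : φ (ze ℓ E) ^ ℓ = 1 := by rw [← map_pow, ze_pow, map_one]
  have h2 : φ (ze ℓ E) ≠ 1 := by
    intro h
    have h3 := (ze_prim ℓ E).geom_sum_eq_zero hℓ.out.one_lt
    have h4 := congrArg φ h3
    rw [map_sum, map_zero] at h4
    simp only [map_pow, h, one_pow, sum_const, card_range, nsmul_eq_mul, mul_one] at h4
    rw [ZMod.natCast_eq_zero_iff] at h4
    exact hpℓ ((Nat.prime_dvd_prime_iff_eq hp.out hℓ.out).1 h4)
  exact IsPrimitiveRoot.iff_orderOf.2 (orderOf_eq_prime h1 h2)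

theorem dvd_sub_one (hpℓ : p ≠ ℓ) (φ : 𝓞 E →+* ZMod p) : ℓ ∣ p - 1 :=
  (exists_lift hℓ.out.pos (ze_pow ℓ E) φ (map_ze_prim ℓ hpℓ φ)).1

/-- the lifted character -/
noncomputable def chi (φ : 𝓞 E →+* ZMod p) (hpℓ : p ≠ ℓ) : MulChar (ZMod p) (𝓞 E) :=
  (exists_lift hℓ.out.pos (ze_pow ℓ E) φ (map_ze_prim ℓ hpℓ φ)).2.choose

theorem chi_spec (φ : 𝓞 E →+* ZMod p) (hpℓ : p ≠ ℓ) : IsLift (ze ℓ E) ℓ φ (chi ℓ φ hpℓ) :=
  (exists_lift hℓ.out.pos (ze_pow ℓ E) φ (map_ze_prim ℓ hpℓ φ)).2.choose_spec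

variable (E)

open Classical in
/-- the half system of `j` -/
noncomputable def SS (j : (ZMod ℓ)ˣ) : Finset Gal(E/ℚ) :=
  univ.filter fun g => 2 * ((j * (ex ℓ E g)⁻¹ : (ZMod ℓ)ˣ) : ZMod ℓ).val < ℓ

theorem mem_SS {j : (ZMod ℓ)ˣ} {g : Gal(E/ℚ)} : g ∈ SS ℓ E j ↔
    2 * ((j * (ex ℓ E g)⁻¹ : (ZMod ℓ)ˣ) : ZMod ℓ).val < ℓ := by
  unfold SS
  rw [mem_filter]
  exact ⟨fun h => h.2, fun h => ⟨mem_univ _, h⟩⟩

theorem val_pos (u : (ZMod ℓ)ˣ) : 0 < (u : ZMod ℓ).val := by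
  rw [Nat.pos_iff_ne_zero, Ne, ZMod.val_eq_zero]
  exact u.ne_zero

theorem val_neg' (u : (ZMod ℓ)ˣ) : ((-u : (ZMod ℓ)ˣ) : ZMod ℓ).val = ℓ - (u : ZMod ℓ).val := by
  rw [Units.val_neg, ZMod.neg_val, if_neg u.ne_zero]

/-- complex conjugation -/
noncomputable def cc : Gal(E/ℚ) := (ex ℓ E).symm (-1)

theorem ex_cc : ex ℓ E (cc ℓ E) = -1 := (ex ℓ E).apply_symm_apply _

include hℓ hE in
theorem gal_comm (g h : Gal(E/ℚ)) : g * h = h * g := by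
  apply (ex ℓ E).injective
  rw [map_mul, map_mul, mul_comm]

theorem mem_SS_cc (hodd : Odd ℓ) {j : (ZMod ℓ)ˣ} {g : Gal(E/ℚ)} :
    g * cc ℓ E ∈ SS ℓ E j ↔ g ∉ SS ℓ E j := by
  have e : j * (ex ℓ E (g * cc ℓ E))⁻¹ = -(j * (ex ℓ E g)⁻¹) := by
    rw [map_mul, ex_cc]
    simp
  rw [mem_SS, mem_SS, e, val_neg', not_lt]
  have h1 := ZMod.val_lt ((j * (ex ℓ E g)⁻¹ : (ZMod ℓ)ˣ) : ZMod ℓ)
  obtain ⟨k, hk⟩ := hodd
  omega

theorem card_SS (hodd : Odd ℓ) (j : (ZMod ℓ)ˣ) :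
    (SS ℓ E j).card + (SS ℓ E j).card = Fintype.card Gal(E/ℚ) := by
  classical
  have h1 : (SS ℓ E j).card = (univ \ SS ℓ E j).card := by
    refine card_bij (fun g _ => g * cc ℓ E) ?_ ?_ ?_
    · intro g hg
      rw [mem_sdiff]
      refine ⟨mem_univ _, fun h => ?_⟩
      exact (mem_SS_cc ℓ E hodd).1 h hg
    · intro g _ h _ hgh
      exact mul_right_cancel hgh
    · intro g hg
      rw [mem_sdiff] at hg
      refine ⟨g * (cc ℓ E)⁻¹, ?_, by group⟩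
      by_contra h
      have := (mem_SS_cc ℓ E hodd (g := g * (cc ℓ E)⁻¹)).2 h
      rw [inv_mul_cancel_right] at this
      exact hg.2 this
  nth_rewrite 2 [h1]
  rw [card_sdiff_of_subset (subset_univ _), card_univ]
  have := card_le_univ (SS ℓ E j)
  omega

variable {E}

/-- the complex conjugation in an embedding -/
theorem emb_cc (ι : E →+* ℂ) (x : 𝓞 E) :
    emb ι (act (cc ℓ E) x) = (starRingEnd ℂ) (emb ι x) := by
  have hprim := IsCyclotomicExtension.zeta_spec ℓ ℚ E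
  set ζ := IsCyclotomicExtension.zeta ℓ ℚ E with hζ
  have h0 : cc ℓ E ζ * ζ = 1 := by
    have h1 := congrArg (fun z : 𝓞 E => (z : E)) (act_ze ℓ E (cc ℓ E))
    rw [act_coe, ex_cc] at h1
    have h2 : ((ze ℓ E : 𝓞 E) : E) = ζ := rfl
    have h3 : (((ze ℓ E) ^ (((-1 : (ZMod ℓ)ˣ) : ZMod ℓ)).val : 𝓞 E) : E) =
        ζ ^ (((-1 : (ZMod ℓ)ˣ) : ZMod ℓ)).val := by
      rw [← h2]
      exact map_pow (algebraMap (𝓞 E) E) _ _
    rw [h2, h3, val_neg'] at h1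
    have h4 : ((1 : (ZMod ℓ)ˣ) : ZMod ℓ).val = 1 := by
      rw [Units.val_one]
      haveI : Fact (1 < ℓ) := ⟨hℓ.out.one_lt⟩
      exact ZMod.val_one ℓ
    rw [h1, h4, ← pow_succ, Nat.sub_add_cancel hℓ.out.one_le]
    exact hprim.pow_eq_one
  have h5 : ι.comp ((cc ℓ E : Gal(E/ℚ)) : E →+* E) = (starRingEnd ℂ).comp ι := by
    have h6 : (ι.comp ((cc ℓ E : Gal(E/ℚ)) : E →+* E)).toRatAlgHom =
        ((starRingEnd ℂ).comp ι).toRatAlgHom := by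
      apply (hprim.powerBasis ℚ).algHom_ext
      rw [IsPrimitiveRoot.powerBasis_gen ℚ hprim]
      change ι (cc ℓ E ζ) = (starRingEnd ℂ) (ι ζ)
      have h7 : ι ζ * (starRingEnd ℂ) (ι ζ) = 1 := by
        have h8 : ‖ι ζ‖ = 1 := by
          refine Complex.norm_eq_one_of_pow_eq_one (n := ℓ) ?_ hℓ.out.ne_zero
          rw [← map_pow, hprim.pow_eq_one, map_one]
        rw [Complex.mul_conj, Complex.normSq_eq_norm_sq, h8]
        norm_num
      have h9 : ι (cc ℓ E ζ) * ι ζ = 1 := by rw [← map_mul, h0, map_one]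
      have h10 : ι ζ ≠ 0 := by
        intro h
        rw [h, mul_zero] at h9
        exact zero_ne_one h9
      apply mul_right_cancel₀ h10
      rw [h9, mul_comm, h7]
    ext z
    exact DFunLike.congr_fun h6 z
  exact DFunLike.congr_fun h5 (x : E)

/-- the absolute value of the product over a half system -/
theorem half_norm (hodd : Odd ℓ) (ι : E →+* ℂ) (j : (ZMod ℓ)ˣ) (h : Gal(E/ℚ)) (x : 𝓞 E) :
    (∏ g ∈ SS ℓ E j, ‖emb ι (act (h * g) x)‖) ^ 2 = Ideal.absNorm (Ideal.span {x}) := by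
  classical
  have hG := isGalois ℓ E
  have hc : ∀ g : Gal(E/ℚ), ‖emb ι (act (g * cc ℓ E) x)‖ = ‖emb ι (act g x)‖ := by
    intro g
    rw [gal_comm ℓ E g, act_mul, emb_cc, Complex.norm_conj]
  have h1 : ∏ g ∈ SS ℓ E j, ‖emb ι (act (h * g) x)‖ =
      ∏ g ∈ univ \ SS ℓ E j, ‖emb ι (act (h * g) x)‖ := by
    refine prod_bij (fun g _ => g * cc ℓ E) ?_ ?_ ?_ ?_
    · intro g hg
      rw [mem_sdiff]
      refine ⟨mem_univ _, fun h => ?_⟩
      exact (mem_SS_cc ℓ E hodd).1 h hg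
    · intro g _ h _ hgh
      exact mul_right_cancel hgh
    · intro g hg
      rw [mem_sdiff] at hg
      refine ⟨g * (cc ℓ E)⁻¹, ?_, by group⟩
      by_contra h
      have := (mem_SS_cc ℓ E hodd (g := g * (cc ℓ E)⁻¹)).2 h
      rw [inv_mul_cancel_right] at this
      exact hg.2 this
    · intro g _
      rw [← mul_assoc, hc]
  rw [sq]
  nth_rewrite 2 [h1]
  rw [mul_comm, prod_sdiff (subset_univ _), absNorm_span_eq ι x]
  exact Fintype.prod_equiv (Equiv.mulLeft h) _ _ fun g => rfl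

/-- the Jacobi sum of a prime of degree one -/
noncomputable def JJ (j : (ZMod ℓ)ˣ) (φ : 𝓞 E →+* ZMod p) (hpℓ : p ≠ ℓ) : 𝓞 E :=
  J (chi ℓ φ hpℓ) (j : ZMod ℓ).val

theorem norm_JJ_sq (hodd : Odd ℓ) (h2 : p ≠ 2) (j : (ZMod ℓ)ˣ) (φ : 𝓞 E →+* ZMod p)
    (hpℓ : p ≠ ℓ) (ι : E →+* ℂ) (h : Gal(E/ℚ)) : ‖emb ι (act h (JJ ℓ j φ hpℓ))‖ ^ 2 = p := by
  have := norm_J_sq h2 (chi_spec ℓ φ hpℓ) (ze_pow ℓ E) (dvd_sub_one ℓ hpℓ φ) hodd
    (val_pos ℓ j) (ZMod.val_lt _) (τ := (emb ι).comp (act h))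
    ((emb_injective ι).comp (act_injective h))
  exact this

theorem act_JJ (j : (ZMod ℓ)ˣ) (φ : 𝓞 E →+* ZMod p) (hpℓ : p ≠ ℓ) (g : Gal(E/ℚ)) :
    act g (JJ ℓ j φ hpℓ) = J (chi ℓ φ hpℓ) ((j * ex ℓ E g : (ZMod ℓ)ˣ) : ZMod ℓ).val := by
  unfold JJ
  rw [map_conj_J (chi_spec ℓ φ hpℓ) (act g) (act_ze ℓ E g) (val_pos ℓ j) (val_pos ℓ _),
    ← J_mod (chi_spec ℓ φ hpℓ) (ze_pow ℓ E) hℓ.out.pos, Units.val_mul, ZMod.val_mul]

theorem map_act_JJ (hodd : Odd ℓ) (h2 : p ≠ 2) (j : (ZMod ℓ)ˣ) (φ : 𝓞 E →+* ZMod p)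
    (hpℓ : p ≠ ℓ) (g : Gal(E/ℚ)) : φ (act g⁻¹ (JJ ℓ j φ hpℓ)) = 0 ↔ g ∈ SS ℓ E j := by
  rw [act_JJ, map_inv, mem_SS]
  have h1 := ZMod.val_lt ((j * (ex ℓ E g)⁻¹ : (ZMod ℓ)ˣ) : ZMod ℓ)
  have h3 := val_pos ℓ (j * (ex ℓ E g)⁻¹)
  constructor
  · intro h
    by_contra hcon
    rw [not_lt] at hcon
    obtain ⟨k, hk⟩ := hodd
    exact map_J_ne_zero h2 (chi_spec ℓ φ hpℓ) (dvd_sub_one ℓ hpℓ φ) (by omega) h1 h
  · intro h
    exact map_J_eq_zero h2 (chi_spec ℓ φ hpℓ) (dvd_sub_one ℓ hpℓ φ) h3 h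

theorem ker_ne (φ : 𝓞 E →+* ZMod p) (hpℓ : p ≠ ℓ) {g h : Gal(E/ℚ)} (hgh : g ≠ h) :
    RingHom.ker (φ.comp (act g⁻¹)) ≠ RingHom.ker (φ.comp (act h⁻¹)) := by
  intro h1
  have h2 := hom_ext_of_ker h1
  have h3 := RingHom.congr_fun h2 (ze ℓ E)
  rw [RingHom.comp_apply, RingHom.comp_apply, act_ze, act_ze, map_pow, map_pow] at h3
  have h4 := (map_ze_prim ℓ hpℓ φ).pow_inj (ZMod.val_lt _) (ZMod.val_lt _) h3
  have h5 := ZMod.val_injective ℓ h4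
  have h6 := Units.ext h5
  exact hgh (inv_injective ((ex ℓ E).injective h6))

/-- the action on ideals -/
noncomputable def Th (j : (ZMod ℓ)ˣ) : Ideal (𝓞 E) →* Ideal (𝓞 E) where
  toFun I := ∏ g ∈ SS ℓ E j, Ideal.map (act g) I
  map_one' := by
    refine prod_eq_one fun g _ => ?_
    rw [Ideal.one_eq_top, Ideal.map_top]
  map_mul' I I' := by
    rw [← prod_mul_distrib]
    exact prod_congr rfl fun g _ => Ideal.map_mul _ _ _

theorem Th_span (j : (ZMod ℓ)ˣ) (x : 𝓞 E) :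
    Th ℓ j (Ideal.span {x}) = Ideal.span {∏ g ∈ SS ℓ E j, act g x} := by
  change ∏ g ∈ SS ℓ E j, Ideal.map (act g) (Ideal.span {x}) = _
  rw [← Ideal.prod_span_singleton]
  refine prod_congr rfl fun g _ => ?_
  rw [Ideal.map_span, Set.image_singleton]

/-- **The Stickelberger relation.** -/
theorem stick (hodd : Odd ℓ) (h2 : p ≠ 2) (j : (ZMod ℓ)ˣ) (φ : 𝓞 E →+* ZMod p)
    (hpℓ : p ≠ ℓ) : Ideal.span {JJ ℓ j φ hpℓ} = Th ℓ j (RingHom.ker φ) := by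
  classical
  obtain ⟨ι⟩ : Nonempty (E →+* ℂ) := inferInstance
  have hG := isGalois ℓ E
  have e1 : Th ℓ j (RingHom.ker φ) = ∏ g ∈ SS ℓ E j, RingHom.ker (φ.comp (act g⁻¹)) :=
    prod_congr rfl fun g _ => map_ker g φ
  have h3 : Th ℓ j (RingHom.ker φ) ∣ Ideal.span {JJ ℓ j φ hpℓ} := by
    rw [e1]
    refine Finset.prod_dvd_of_coprime ?_ ?_
    · intro g _ h _ hgh
      have m1 := ker_maximal (φ.comp (act g⁻¹))
      have m2 := ker_maximal (φ.comp (act h⁻¹))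
      change IsCoprime (RingHom.ker (φ.comp (act g⁻¹))) (RingHom.ker (φ.comp (act h⁻¹)))
      rw [Ideal.isCoprime_iff_sup_eq]
      exact Ideal.IsMaximal.coprime_of_ne m1 m2 (ker_ne ℓ φ hpℓ hgh)
    · intro g hg
      rw [Ideal.dvd_span_singleton, RingHom.mem_ker, RingHom.comp_apply]
      exact (map_act_JJ ℓ hodd h2 j φ hpℓ g).2 hg
  obtain ⟨I, hI⟩ := h3
  have n1 : Ideal.absNorm (Th ℓ j (RingHom.ker φ)) = p ^ (SS ℓ E j).card := by
    rw [e1, map_prod, prod_congr rfl fun g _ => absNorm_ker (φ.comp (act g⁻¹)), prod_const]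
  have n2 : Ideal.absNorm (Ideal.span {JJ ℓ j φ hpℓ}) = p ^ (SS ℓ E j).card := by
    have h4 : (Ideal.absNorm (Ideal.span {JJ ℓ j φ hpℓ}) : ℝ) ^ 2 =
        ((p ^ (SS ℓ E j).card : ℕ) : ℝ) ^ 2 := by
      rw [absNorm_span_eq ι, ← prod_pow,
        prod_congr rfl fun g _ => norm_JJ_sq ℓ hodd h2 j φ hpℓ ι g, prod_const, card_univ,
        ← card_SS ℓ E hodd j]
      push_cast
      ring
    have h5 := (sq_eq_sq₀ (Nat.cast_nonneg _) (Nat.cast_nonneg _)).1 h4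
    exact_mod_cast h5
  have hp0 : 0 < p ^ (SS ℓ E j).card := pow_pos hp.out.pos _
  have h6 := congrArg Ideal.absNorm hI
  rw [map_mul, n1, n2] at h6
  have h7 : Ideal.absNorm I = 1 := by
    have : p ^ (SS ℓ E j).card * 1 = p ^ (SS ℓ E j).card * Ideal.absNorm I := by rw [mul_one, ← h6]
    exact (Nat.eq_of_mul_eq_mul_left hp0 this).symm
  rw [hI, Ideal.absNorm_eq_one_iff.1 h7, ← Ideal.one_eq_top, mul_one]

end cyc

end Pool.Agent.L7h11.JS
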