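import Pool.Agent.L7h11.JS.Gal
import Pool.Agent.Y767.HC.Ext
import Pool.Agent.Y767.HC.Grp
import Pool.Agent.N172.HS.Defs

/-!
# The Jacobi sums `J(χ^j, η)` are values of a Hecke character (A. Weil)
-/

set_option autoImplicit false
set_option linter.unusedSectionVars false

namespace Pool.Agent.L7h11.JS

open Finset NumberField IsDedekindDomain
open Pool.Agent.W353.TP (HX)
open Pool.Agent.Y767 (Mq Mq_cop Mq_ne_bot Mq_cancel ext_mon)
open Pool.Agent.N172.HS (IsHecke arch TotPos)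

section lift

variable {D N : Type} [CommMonoid N]

/-- the homomorphism of the free commutative monoid -/
noncomputable def liftM (f : D → N) : Multiplicative (Multiset D) →* N where
  toFun m := ((Multiplicative.toAdd m).map f).prod
  map_one' := by
    rw [toAdd_one, Multiset.map_zero, Multiset.prod_zero]
  map_mul' a b := by
    rw [toAdd_mul, Multiset.map_add, Multiset.prod_add]

theorem liftM_single (f : D → N) (y : D) : liftM f (Multiplicative.ofAdd {y}) = f y := by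
  change ((({y} : Multiset D)).map f).prod = f y
  rw [Multiset.map_singleton, Multiset.prod_singleton]

/-- induction for the free commutative monoid -/
theorem ind_M {P : Multiplicative (Multiset D) → Prop} (h1 : P 1)
    (h2 : ∀ y m, P m → P (Multiplicative.ofAdd {y} * m)) (m : Multiplicative (Multiset D)) :
    P m := by
  have key : ∀ s : Multiset D, P (Multiplicative.ofAdd s) := by
    intro s
    induction s using Multiset.induction_on with
    | empty => exact h1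
    | cons a s ih =>
      have := h2 a _ ih
      rw [← ofAdd_add, Multiset.singleton_add] at this
      exact this
  exact key (Multiplicative.toAdd m)

end lift

variable (ℓ : ℕ) [hℓ : Fact ℓ.Prime] (E : Type) [Field E] [NumberField E]
  [hE : IsCyclotomicExtension {ℓ} ℚ E]

/-- the conductor -/
noncomputable def cond : Ideal (𝓞 E) := Ideal.span {((2 * ℓ : ℕ) : 𝓞 E)}

theorem natCast_ne_zero {n : ℕ} (hn : n ≠ 0) : ((n : ℕ) : 𝓞 E) ≠ 0 := by
  exact_mod_cast hn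

theorem cond_ne_bot : cond ℓ E ≠ ⊥ := by
  unfold cond
  rw [Ne, Ideal.span_singleton_eq_bot]
  exact natCast_ne_zero E (Nat.mul_pos two_pos hℓ.out.pos).ne'

include hℓ hE in
theorem span_nat_ne_top {n : ℕ} (hn : 2 ≤ n) : Ideal.span {((n : ℕ) : 𝓞 E)} ≠ ⊤ := by
  intro h
  rw [Ideal.span_singleton_eq_top] at h
  obtain ⟨y, hy⟩ := h.exists_right_inv
  have hG := isGalois ℓ E
  obtain ⟨ι⟩ : Nonempty (E →+* ℂ) := inferInstance
  have h1 : ∀ g : Gal(E/ℚ), ‖emb ι (act g y)‖ = (n : ℝ)⁻¹ := by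
    intro g
    have h2 := congrArg (fun z => ‖emb ι (act g z)‖) hy
    simp only [map_mul, map_natCast, map_one, norm_mul, norm_one, Complex.norm_natCast] at h2
    exact eq_inv_of_mul_eq_one_right h2
  have h3 := absNorm_span_eq ι y
  rw [prod_congr rfl fun g _ => h1 g, prod_const, card_univ] at h3
  have hn0 : (0 : ℝ) < n := by positivity
  have h4 : (Ideal.absNorm (Ideal.span {y}) : ℝ) * (n : ℝ) ^ Fintype.card Gal(E/ℚ) = 1 := by
    rw [h3, ← mul_pow, inv_mul_cancel₀ hn0.ne', one_pow]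
  have h5 : Ideal.absNorm (Ideal.span {y}) * n ^ Fintype.card Gal(E/ℚ) = 1 := by exact_mod_cast h4
  have h6 := Nat.eq_one_of_mul_eq_one_left h5
  have h7 : n ^ Fintype.card Gal(E/ℚ) ≠ 1 := by
    have := Nat.one_lt_pow (Fintype.card_ne_zero (α := Gal(E/ℚ))) (by omega : 1 < n)
    omega
  exact h7 h6

theorem cond_ne_top : cond ℓ E ≠ ⊤ :=
  span_nat_ne_top ℓ E (by have := hℓ.out.two_le; omega)

/-- the elements congruent to one -/
noncomputable def T1 : Submonoid (𝓞 E) where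
  carrier := {x | x - 1 ∈ cond ℓ E}
  mul_mem' {x y} hx hy := by
    change x * y - 1 ∈ cond ℓ E
    have e : x * y - 1 = x * (y - 1) + (x - 1) := by ring
    rw [e]
    exact Ideal.add_mem _ (Ideal.mul_mem_left _ _ hy) hx
  one_mem' := by
    change (1 : 𝓞 E) - 1 ∈ cond ℓ E
    rw [sub_self]
    exact Ideal.zero_mem _

variable {E} in
theorem T1_sub (x : T1 ℓ E) : (x : 𝓞 E) - 1 ∈ cond ℓ E := x.2

variable {E} in
theorem T1_cop (x : T1 ℓ E) : IsCoprime (Ideal.span {(x : 𝓞 E)}) (cond ℓ E) := by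
  rw [Ideal.isCoprime_iff_sup_eq, Ideal.eq_top_iff_one]
  have e : (1 : 𝓞 E) = (x : 𝓞 E) - ((x : 𝓞 E) - 1) := by ring
  rw [e]
  exact Ideal.sub_mem _ (Ideal.mem_sup_left (Ideal.mem_span_singleton_self _))
    (Ideal.mem_sup_right (T1_sub ℓ x))

/-- the primes of degree one outside of `2 ℓ` -/
def DD : Type := {y : HX E // (y.1 : ℕ) ≠ 2 ∧ (y.1 : ℕ) ≠ ℓ}

variable {E}

instance fact_prime (y : HX E) : Fact (y.1 : ℕ).Prime := ⟨y.1.2⟩

theorem ker_cop (y : DD ℓ E) : IsCoprime (RingHom.ker y.1.2) (cond ℓ E) := by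
  have hm := ker_maximal y.1.2
  rw [Ideal.isCoprime_iff_sup_eq]
  refine hm.1.2 _ (lt_of_le_of_ne le_sup_left fun h => ?_)
  have h1 : cond ℓ E ≤ RingHom.ker y.1.2 := by
    rw [h]
    exact le_sup_right
  have h2 : ((2 * ℓ : ℕ) : 𝓞 E) ∈ RingHom.ker y.1.2 := h1 (Ideal.mem_span_singleton_self _)
  rw [RingHom.mem_ker, map_natCast, ZMod.natCast_eq_zero_iff, y.1.1.2.dvd_mul] at h2
  rcases h2 with h2 | h2
  · exact y.2.1 ((Nat.prime_dvd_prime_iff_eq y.1.1.2 Nat.prime_two).1 h2)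
  · exact y.2.2 ((Nat.prime_dvd_prime_iff_eq y.1.1.2 hℓ.out).1 h2)

/-- the ideals of the elements -/
noncomputable def pi1 : T1 ℓ E →* Mq (cond ℓ E) where
  toFun x := ⟨Ideal.span {(x : 𝓞 E)}, T1_cop ℓ x⟩
  map_one' := Subtype.ext (by
    change Ideal.span {(1 : 𝓞 E)} = 1
    rw [Ideal.span_singleton_one, Ideal.one_eq_top])
  map_mul' x y := Subtype.ext (by
    change Ideal.span {(x : 𝓞 E) * y} = Ideal.span {(x : 𝓞 E)} * Ideal.span {(y : 𝓞 E)}
    rw [Ideal.span_singleton_mul_span_singleton])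

/-- the prime ideals -/
noncomputable def pi2 (y : DD ℓ E) : Mq (cond ℓ E) := ⟨RingHom.ker y.1.2, ker_cop ℓ y⟩

/-- the ideals -/
noncomputable def pp : T1 ℓ E × Multiplicative (Multiset (DD ℓ E)) →* Mq (cond ℓ E) :=
  (pi1 ℓ).coprod (liftM (pi2 ℓ))

/-- the half norm -/
noncomputable def a1 (j : (ZMod ℓ)ˣ) : T1 ℓ E →* 𝓞 E where
  toFun x := ∏ g ∈ SS ℓ E j, act g (x : 𝓞 E)
  map_one' := prod_eq_one fun g _ => map_one _
  map_mul' x y := by
    rw [← prod_mul_distrib]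
    exact prod_congr rfl fun g _ => map_mul _ _ _

/-- the numbers -/
noncomputable def AA (j : (ZMod ℓ)ˣ) : T1 ℓ E × Multiplicative (Multiset (DD ℓ E)) →* 𝓞 E :=
  (a1 ℓ j).coprod (liftM fun y => -JJ ℓ j y.1.2 y.2.2)

theorem pp_apply (t : T1 ℓ E × Multiplicative (Multiset (DD ℓ E))) :
    pp ℓ t = pi1 ℓ t.1 * liftM (pi2 ℓ) t.2 := rfl

theorem AA_apply (j : (ZMod ℓ)ˣ) (t : T1 ℓ E × Multiplicative (Multiset (DD ℓ E))) :
    AA ℓ j t = a1 ℓ j t.1 * liftM (fun y => -JJ ℓ j y.1.2 y.2.2) t.2 := rfl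

/-- the absolute value -/
theorem AA_norm (hodd : Odd ℓ) (j : (ZMod ℓ)ˣ) (ι : E →+* ℂ)
    (t : T1 ℓ E × Multiplicative (Multiset (DD ℓ E))) :
    ‖emb ι (AA ℓ j t)‖ ^ 2 = Ideal.absNorm ((pp ℓ t : Mq (cond ℓ E)) : Ideal (𝓞 E)) := by
  have h1 : ‖emb ι (a1 ℓ j t.1)‖ ^ 2 = Ideal.absNorm (Ideal.span {(t.1 : 𝓞 E)}) := by
    have := half_norm ℓ hodd ι j 1 (t.1 : 𝓞 E)
    rw [← this]
    congr 1
    change ‖emb ι (∏ g ∈ SS ℓ E j, act g (t.1 : 𝓞 E))‖ = _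
    rw [map_prod, norm_prod]
    simp only [one_mul]
  have h2 : ∀ m : Multiplicative (Multiset (DD ℓ E)),
      ‖emb ι (liftM (fun y => -JJ ℓ j y.1.2 y.2.2) m)‖ ^ 2 =
        Ideal.absNorm ((liftM (pi2 ℓ) m : Mq (cond ℓ E)) : Ideal (𝓞 E)) := by
    intro m
    induction m using ind_M with
    | h1 =>
      rw [map_one, map_one, map_one, Submonoid.coe_one, map_one]
      simp
    | h2 y m ih =>
      rw [map_mul, map_mul, map_mul, norm_mul, mul_pow, ih, liftM_single, liftM_single,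
        Submonoid.coe_mul, map_mul, map_neg, norm_neg]
      have h3 := norm_JJ_sq ℓ hodd y.2.1 j y.1.2 y.2.2 ι 1
      rw [act_one] at h3
      have h4 := absNorm_ker y.1.2
      have h5 : ((pi2 ℓ y : Mq (cond ℓ E)) : Ideal (𝓞 E)) = RingHom.ker y.1.2 := rfl
      rw [h3, h5, h4]
      push_cast
      ring
  rw [pp_apply, AA_apply, map_mul, norm_mul, mul_pow, h1, h2, Submonoid.coe_mul, map_mul]
  push_cast
  rfl

/-- the ideal -/
theorem AA_ideal (hodd : Odd ℓ) (j : (ZMod ℓ)ˣ)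
    (t : T1 ℓ E × Multiplicative (Multiset (DD ℓ E))) :
    Ideal.span {AA ℓ j t} = Th ℓ j ((pp ℓ t : Mq (cond ℓ E)) : Ideal (𝓞 E)) := by
  have h2 : ∀ m : Multiplicative (Multiset (DD ℓ E)),
      Ideal.span {liftM (fun y => -JJ ℓ j y.1.2 y.2.2) m} =
        Th ℓ j ((liftM (pi2 ℓ) m : Mq (cond ℓ E)) : Ideal (𝓞 E)) := by
    intro m
    induction m using ind_M with
    | h1 =>
      rw [map_one, map_one, Submonoid.coe_one, map_one, Ideal.span_singleton_one,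
        Ideal.one_eq_top]
    | h2 y m ih =>
      rw [map_mul, map_mul, ← Ideal.span_singleton_mul_span_singleton, ih, liftM_single,
        liftM_single, Submonoid.coe_mul, map_mul, Ideal.span_singleton_neg,
        stick ℓ hodd y.2.1 j y.1.2 y.2.2]
      rfl
  rw [pp_apply, AA_apply, ← Ideal.span_singleton_mul_span_singleton, h2, Submonoid.coe_mul,
    map_mul]
  congr 1
  exact (Th_span ℓ j _).symm

/-- the congruences -/
theorem AA_mod (j : (ZMod ℓ)ˣ) (I : Ideal (𝓞 E))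
    (hI1 : ∀ y : DD ℓ E, -JJ ℓ j y.1.2 y.2.2 - 1 ∈ I)
    (hI2 : ∀ g : Gal(E/ℚ), ∀ x ∈ cond ℓ E, act g x ∈ I)
    (t : T1 ℓ E × Multiplicative (Multiset (DD ℓ E))) : AA ℓ j t - 1 ∈ I := by
  rw [← Ideal.Quotient.eq, map_one, AA_apply, map_mul]
  have h1 : Ideal.Quotient.mk I (a1 ℓ j t.1) = 1 := by
    change Ideal.Quotient.mk I (∏ g ∈ SS ℓ E j, act g (t.1 : 𝓞 E)) = 1
    rw [map_prod]
    refine prod_eq_one fun g _ => ?_
    rw [← map_one (Ideal.Quotient.mk I), Ideal.Quotient.eq, ← map_one (act g), ← map_sub]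
    exact hI2 g _ (T1_sub ℓ t.1)
  have h2 : ∀ m : Multiplicative (Multiset (DD ℓ E)),
      Ideal.Quotient.mk I (liftM (fun y => -JJ ℓ j y.1.2 y.2.2) m) = 1 := by
    intro m
    induction m using ind_M with
    | h1 => rw [map_one, map_one]
    | h2 y m ih =>
      rw [map_mul, map_mul, ih, liftM_single, mul_one, ← map_one (Ideal.Quotient.mk I),
        Ideal.Quotient.eq]
      exact hI1 y
  rw [h1, h2, one_mul]

theorem one_sub_dvd : (1 - ze ℓ E) ∣ ((ℓ : ℕ) : 𝓞 E) := by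
  have h1 := (ze_prim ℓ E).geom_sum_eq_zero hℓ.out.one_lt
  have h2 : ((ℓ : ℕ) : 𝓞 E) = ∑ i ∈ range ℓ, (1 - ze ℓ E ^ i) := by
    rw [sum_sub_distrib, h1, sum_const, card_range, nsmul_eq_mul, mul_one, sub_zero]
  rw [h2]
  refine dvd_sum fun i _ => ?_
  have := sub_dvd_pow_sub_pow (1 : 𝓞 E) (ze ℓ E) i
  rwa [one_pow] at this

theorem mod_two (j : (ZMod ℓ)ˣ) (t : T1 ℓ E × Multiplicative (Multiset (DD ℓ E))) :
    AA ℓ j t - 1 ∈ Ideal.span {(2 : 𝓞 E)} := by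
  refine AA_mod ℓ j _ (fun y => ?_) (fun g x hx => ?_) t
  · exact J_mod_two (chi_spec ℓ y.1.2 y.2.2) (dvd_sub_one ℓ y.2.2 y.1.2) (val_pos ℓ j)
      (ZMod.val_lt _)
  · unfold cond at hx
    rw [Ideal.mem_span_singleton] at hx ⊢
    obtain ⟨c, rfl⟩ := hx
    refine ⟨(ℓ : 𝓞 E) * act g c, ?_⟩
    rw [map_mul, map_natCast]
    push_cast
    ring

theorem mod_lam (j : (ZMod ℓ)ˣ) (t : T1 ℓ E × Multiplicative (Multiset (DD ℓ E))) :
    AA ℓ j t - 1 ∈ Ideal.span {1 - ze ℓ E} := by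
  refine AA_mod ℓ j _ (fun y => ?_) (fun g x hx => ?_) t
  · exact J_mod_lam y.2.1 (chi_spec ℓ y.1.2 y.2.2) (val_pos ℓ j)
  · unfold cond at hx
    rw [Ideal.mem_span_singleton] at hx ⊢
    obtain ⟨c, rfl⟩ := hx
    obtain ⟨b, hb⟩ := one_sub_dvd ℓ (E := E)
    refine ⟨2 * b * act g c, ?_⟩
    rw [map_mul, map_natCast]
    push_cast
    rw [hb]
    ring

include hℓ hE in
theorem not_unit_two : ¬ IsUnit (2 : 𝓞 E) := by
  intro h
  have := span_nat_ne_top ℓ E (n := 2) le_rfl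
  apply this
  rw [Ideal.span_singleton_eq_top]
  exact_mod_cast h

theorem not_unit_lam : ¬ IsUnit (1 - ze ℓ E) := by
  intro h
  have h1 := (IsCyclotomicExtension.zeta_spec ℓ ℚ E).zeta_sub_one_prime'
  apply h1.not_isUnit
  have e : (IsCyclotomicExtension.zeta_spec ℓ ℚ E).toInteger - 1 = -(1 - ze ℓ E) := by
    unfold ze
    ring
  rw [e]
  exact h.neg

/-- the odd number `ℓ` is not divisible by two -/
theorem not_two_dvd (hodd : Odd ℓ) : ¬ (2 : 𝓞 E) ∣ ((ℓ : ℕ) : 𝓞 E) := by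
  rintro ⟨c, hc⟩
  obtain ⟨k, hk⟩ := hodd
  apply not_unit_two ℓ (E := E)
  refine IsUnit.of_mul_eq_one (c - k) ?_
  have h1 : ((ℓ : ℕ) : 𝓞 E) = 2 * k + 1 := by rw [hk]; push_cast; ring
  rw [h1] at hc
  linear_combination -hc

/-- **The numbers depend only on the ideals.** -/
theorem AA_eq (hodd : Odd ℓ) (j : (ZMod ℓ)ˣ)
    {t t' : T1 ℓ E × Multiplicative (Multiset (DD ℓ E))} (h : pp ℓ t = pp ℓ t') :
    AA ℓ j t = AA ℓ j t' := by
  have h1 : Ideal.span {AA ℓ j t} = Ideal.span {AA ℓ j t'} := by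
    rw [AA_ideal ℓ hodd, AA_ideal ℓ hodd, h]
  rw [Ideal.span_singleton_eq_span_singleton] at h1
  obtain ⟨u, hu⟩ := h1
  -- the unit is congruent to one
  have hmod : ∀ I : Ideal (𝓞 E), AA ℓ j t - 1 ∈ I → AA ℓ j t' - 1 ∈ I → (u : 𝓞 E) - 1 ∈ I := by
    intro I h2 h3
    have h4 := (Ideal.Quotient.eq (I := I)).2 h2
    have h5 := (Ideal.Quotient.eq (I := I)).2 h3
    have h6 := congrArg (Ideal.Quotient.mk I) hu
    rw [map_mul, h4, h5, map_one, one_mul] at h6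
    rw [← Ideal.Quotient.eq, h6, map_one]
  have hu2 := hmod _ (mod_two ℓ j t) (mod_two ℓ j t')
  have hul := hmod _ (mod_lam ℓ j t) (mod_lam ℓ j t')
  -- its absolute values are one
  have habs : ∀ τ : E →+* ℂ, ‖τ ((u : 𝓞 E) : E)‖ = 1 := by
    intro τ
    have h2 := AA_norm ℓ hodd j τ t
    have h3 := AA_norm ℓ hodd j τ t'
    rw [← hu, map_mul, norm_mul, mul_pow, h2, ← h] at h3
    have h4 : (0 : ℝ) < Ideal.absNorm ((pp ℓ t : Mq (cond ℓ E)) : Ideal (𝓞 E)) := by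
      have h5 : Ideal.absNorm ((pp ℓ t : Mq (cond ℓ E)) : Ideal (𝓞 E)) ≠ 0 := by
        rw [Ne, Ideal.absNorm_eq_zero_iff]
        exact Mq_ne_bot (cond_ne_top ℓ E) _
      exact_mod_cast Nat.pos_of_ne_zero h5
    have h5 : ‖emb τ (u : 𝓞 E)‖ ^ 2 = 1 := by
      have h6 := mul_right_eq_self₀.1 h3
      exact h6.resolve_right h4.ne'
    exact (pow_eq_one_iff_of_nonneg (norm_nonneg _) two_ne_zero).1 h5
  obtain ⟨n, hn, hun⟩ := NumberField.Embeddings.pow_eq_one_of_norm_eq_one E ℂ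
    (x := ((u : 𝓞 E) : E)) (RingOfIntegers.isIntegral_coe _) habs
  have hfin : IsOfFinOrder ((u : 𝓞 E) : E) := isOfFinOrder_iff_pow_eq_one.2 ⟨n, hn, hun⟩
  obtain ⟨r, hr, hu'⟩ := (IsCyclotomicExtension.zeta_spec ℓ ℚ
    E).exists_pow_or_neg_mul_pow_of_isOfFinOrder hodd hfin
  have hzr : (1 - ze ℓ E) ∣ (1 - ze ℓ E ^ r) := by
    have := sub_dvd_pow_sub_pow (1 : 𝓞 E) (ze ℓ E) r
    rwa [one_pow] at this
  have hu1 : (u : 𝓞 E) = 1 := by
    rcases hu' with hu' | hu'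
    · have e1 : (u : 𝓞 E) = ze ℓ E ^ r := by
        apply RingOfIntegers.ext
        rw [hu']
        change _ = algebraMap (𝓞 E) E (ze ℓ E ^ r)
        rw [map_pow]
        rfl
      rcases Nat.eq_zero_or_pos r with h0 | h0
      · rw [e1, h0, pow_zero]
      · exfalso
        rw [e1, Ideal.mem_span_singleton] at hu2
        -- `1 - ζ^r` divides `ℓ`
        have hprim : IsPrimitiveRoot (ze ℓ E ^ r) ℓ := by
          apply (ze_prim ℓ E).pow_of_coprime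
          exact (Nat.coprime_comm.1 ((Nat.Prime.coprime_iff_not_dvd hℓ.out).2
            fun hd => absurd (Nat.le_of_dvd h0 hd) (not_le.2 hr)))
        have h2 : (1 - ze ℓ E ^ r) ∣ ((ℓ : ℕ) : 𝓞 E) := by
          have h1 := hprim.geom_sum_eq_zero hℓ.out.one_lt
          have h2 : ((ℓ : ℕ) : 𝓞 E) = ∑ i ∈ range ℓ, (1 - (ze ℓ E ^ r) ^ i) := by
            rw [sum_sub_distrib, h1, sum_const, card_range, nsmul_eq_mul, mul_one, sub_zero]
          rw [h2]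
          refine dvd_sum fun i _ => ?_
          have := sub_dvd_pow_sub_pow (1 : 𝓞 E) (ze ℓ E ^ r) i
          rwa [one_pow] at this
        have h3 : (2 : 𝓞 E) ∣ (1 - ze ℓ E ^ r) := by
          rw [← neg_sub, dvd_neg]
          exact hu2
        exact not_two_dvd ℓ hodd (h3.trans h2)
    · exfalso
      have e1 : (u : 𝓞 E) = -ze ℓ E ^ r := by
        apply RingOfIntegers.ext
        rw [hu']
        change _ = algebraMap (𝓞 E) E (-ze ℓ E ^ r)
        rw [map_neg, map_pow]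
        rfl
      rw [e1, Ideal.mem_span_singleton] at hul
      have h2 : (1 - ze ℓ E) ∣ (2 : 𝓞 E) := by
        have h3 : (2 : 𝓞 E) = (1 - ze ℓ E ^ r) - (-ze ℓ E ^ r - 1) := by ring
        rw [h3]
        exact dvd_sub hzr hul
      obtain ⟨k, hk⟩ := hodd
      have h3 : ((ℓ : ℕ) : 𝓞 E) = 2 * k + 1 := by rw [hk]; push_cast; ring
      have h4 : (1 - ze ℓ E) ∣ 1 := by
        have h5 : (1 - ze ℓ E) ∣ ((ℓ : ℕ) : 𝓞 E) - 2 * k :=
          dvd_sub (one_sub_dvd ℓ) (h2.mul_right _)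
        have h6 : ((ℓ : ℕ) : 𝓞 E) - 2 * k = 1 := by rw [h3]; ring
        rwa [h6] at h5
      exact not_unit_lam ℓ (isUnit_of_dvd_one h4)
  rw [← hu, hu1, mul_one]

section ext

variable {K : Type} [Field K] [NumberField K]

open Classical in
/-- extension by zero -/
noncomputable def oM {𝔮 : Ideal (𝓞 K)} (htop : 𝔮 ≠ ⊤) (F : Mq 𝔮 →* ℂˣ) : Ideal (𝓞 K) →*₀ ℂ where
  toFun 𝔞 := if h : IsCoprime 𝔞 𝔮 then ((F ⟨𝔞, h⟩ : ℂˣ) : ℂ) else 0
  map_zero' := by
    rw [dif_neg]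
    intro h
    rw [Ideal.zero_eq_bot, Ideal.isCoprime_iff_sup_eq, bot_sup_eq] at h
    exact htop h
  map_one' := by
    rw [dif_pos isCoprime_one_left]
    have : (⟨1, isCoprime_one_left⟩ : Mq 𝔮) = 1 := rfl
    rw [this, map_one, Units.val_one]
  map_mul' 𝔞 𝔟 := by
    by_cases h1 : IsCoprime 𝔞 𝔮
    · by_cases h2 : IsCoprime 𝔟 𝔮
      · rw [dif_pos h1, dif_pos h2, dif_pos (h1.mul_left h2), ← Units.val_mul, ← map_mul]
        rfl
      · rw [dif_neg h2, dif_neg (fun h => h2 (IsCoprime.mul_left_iff.mp h).2), mul_zero]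
    · rw [dif_neg h1, dif_neg (fun h => h1 (IsCoprime.mul_left_iff.mp h).1), zero_mul]

open Classical in
theorem oM_coe {𝔮 : Ideal (𝓞 K)} (htop : 𝔮 ≠ ⊤) (F : Mq 𝔮 →* ℂˣ) (x : Mq 𝔮) :
    oM htop F (x : Ideal (𝓞 K)) = ((F x : ℂˣ) : ℂ) := by
  change (if h : IsCoprime (x : Ideal (𝓞 K)) 𝔮 then ((F ⟨(x : Ideal (𝓞 K)), h⟩ : ℂˣ) : ℂ) else 0) = _
  rw [dif_pos (Mq_cop x)]

open Classical in
theorem oM_supp {𝔮 : Ideal (𝓞 K)} (htop : 𝔮 ≠ ⊤) (F : Mq 𝔮 →* ℂˣ) (𝔞 : Ideal (𝓞 K)) :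
    oM htop F 𝔞 ≠ 0 ↔ IsCoprime 𝔞 𝔮 := by
  change (if h : IsCoprime 𝔞 𝔮 then ((F ⟨𝔞, h⟩ : ℂˣ) : ℂ) else 0) ≠ 0 ↔ _
  by_cases h : IsCoprime 𝔞 𝔮
  · rw [dif_pos h]
    exact ⟨fun _ => h, fun _ => Units.ne_zero _⟩
  · rw [dif_neg h]
    exact ⟨fun h1 => absurd rfl h1, fun h1 => absurd h1 h⟩

end ext

section hecke

variable (hodd : Odd ℓ) (j : (ZMod ℓ)ˣ) (ι : E →+* ℂ)

theorem absNorm_pp_pos (t : T1 ℓ E × Multiplicative (Multiset (DD ℓ E))) :
    (0 : ℝ) < Ideal.absNorm ((pp ℓ t : Mq (cond ℓ E)) : Ideal (𝓞 E)) := by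
  have h5 : Ideal.absNorm ((pp ℓ t : Mq (cond ℓ E)) : Ideal (𝓞 E)) ≠ 0 := by
    rw [Ne, Ideal.absNorm_eq_zero_iff]
    exact Mq_ne_bot (cond_ne_top ℓ E) _
  exact_mod_cast Nat.pos_of_ne_zero h5

/-- the value -/
noncomputable def vv (t : T1 ℓ E × Multiplicative (Multiset (DD ℓ E))) : ℂ :=
  emb ι (AA ℓ j t) /
    ((Real.sqrt (Ideal.absNorm ((pp ℓ t : Mq (cond ℓ E)) : Ideal (𝓞 E)) : ℝ) : ℝ) : ℂ)

include hodd in
theorem norm_vv (t : T1 ℓ E × Multiplicative (Multiset (DD ℓ E))) : ‖vv ℓ j ι t‖ = 1 := by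
  have h1 := AA_norm ℓ hodd j ι t
  have h2 := absNorm_pp_pos ℓ t
  unfold vv
  rw [norm_div, Complex.norm_real, Real.norm_of_nonneg (Real.sqrt_nonneg _), ← h1,
    Real.sqrt_sq (norm_nonneg _)]
  apply div_self
  intro h3
  rw [h3] at h1
  rw [← h1] at h2
  norm_num at h2

/-- the character on the generators -/
noncomputable def Ph : T1 ℓ E × Multiplicative (Multiset (DD ℓ E)) →* ℂˣ where
  toFun t := Units.mk0 (vv ℓ j ι t) (by
    rw [← norm_ne_zero_iff, norm_vv ℓ hodd j ι t]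
    exact one_ne_zero)
  map_one' := by
    ext
    rw [Units.val_mk0, Units.val_one]
    unfold vv
    rw [map_one, map_one, map_one, Submonoid.coe_one, map_one]
    simp
  map_mul' t t' := by
    ext
    rw [Units.val_mk0, Units.val_mul, Units.val_mk0, Units.val_mk0]
    unfold vv
    rw [map_mul, map_mul, map_mul, Submonoid.coe_mul, map_mul, Nat.cast_mul,
      Real.sqrt_mul (Nat.cast_nonneg _), Complex.ofReal_mul]
    exact mul_div_mul_comm _ _ _ _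

theorem Ph_coe (t : T1 ℓ E × Multiplicative (Multiset (DD ℓ E))) :
    ((Ph ℓ hodd j ι t : ℂˣ) : ℂ) = vv ℓ j ι t := rfl

/-- the direction of a complex number -/
noncomputable def nrm : ℂˣ →* ℂˣ where
  toFun u := Units.mk0 ((u : ℂ) / ((‖(u : ℂ)‖ : ℝ) : ℂ)) (div_ne_zero u.ne_zero (by
    rw [Ne, Complex.ofReal_eq_zero]
    exact norm_ne_zero_iff.2 u.ne_zero))
  map_one' := by
    ext
    rw [Units.val_mk0, Units.val_one, norm_one]
    simp
  map_mul' u w := by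
    ext
    rw [Units.val_mk0, Units.val_mul, Units.val_mul, Units.val_mk0, Units.val_mk0, norm_mul,
      Complex.ofReal_mul]
    exact mul_div_mul_comm _ _ _ _

theorem nrm_coe (u : ℂˣ) : ((nrm u : ℂˣ) : ℂ) = (u : ℂ) / ((‖(u : ℂ)‖ : ℝ) : ℂ) := rfl

theorem norm_nrm (u : ℂˣ) : ‖((nrm u : ℂˣ) : ℂ)‖ = 1 := by
  rw [nrm_coe, norm_div, Complex.norm_real, norm_norm]
  exact div_self (norm_ne_zero_iff.2 u.ne_zero)

theorem nrm_of_norm {u : ℂˣ} (h : ‖(u : ℂ)‖ = 1) : nrm u = u := by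
  ext
  rw [nrm_coe, h, Complex.ofReal_one, div_one]

open Classical in
/-- the infinity type -/
noncomputable def kk (σ : E →+* ℂ) : ℤ :=
  if ∃ g ∈ SS ℓ E j, σ = ι.comp (g : E →+* E) then 1 else 0

theorem comp_inj {g h : Gal(E/ℚ)} (hgh : ι.comp (g : E →+* E) = ι.comp (h : E →+* E)) :
    g = h := by
  apply AlgEquiv.ext
  intro x
  apply ι.injective
  exact RingHom.congr_fun hgh x

theorem arch_eq (x : 𝓞 E) : arch (kk ℓ j ι) 0 (x : E) =
    ∏ g ∈ SS ℓ E j, (emb ι (act g x) / ((‖emb ι (act g x)‖ : ℝ) : ℂ)) := by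
  classical
  unfold arch
  have h1 : ∀ σ : E →+* ℂ, (σ (x : E) / (‖σ (x : E)‖ : ℂ)) ^ kk ℓ j ι σ *
      Complex.exp (((0 : (E →+* ℂ) → ℝ) σ * Real.log ‖σ (x : E)‖ : ℝ) * Complex.I) =
      if ∃ g ∈ SS ℓ E j, σ = ι.comp (g : E →+* E) then σ (x : E) / (‖σ (x : E)‖ : ℂ) else 1 := by
    intro σ
    unfold kk
    rw [Pi.zero_apply, zero_mul, Complex.ofReal_zero, zero_mul, Complex.exp_zero, mul_one]
    split_ifs
    · rw [zpow_one]
    · rw [zpow_zero]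
  rw [Fintype.prod_congr _ _ h1, ← prod_filter]
  have h2 : (univ.filter fun σ : E →+* ℂ => ∃ g ∈ SS ℓ E j, σ = ι.comp (g : E →+* E)) =
      (SS ℓ E j).image fun g : Gal(E/ℚ) => ι.comp (g : E →+* E) := by
    ext σ
    rw [mem_filter, mem_image]
    constructor
    · rintro ⟨-, g, hg, rfl⟩
      exact ⟨g, hg, rfl⟩
    · rintro ⟨g, hg, rfl⟩
      exact ⟨mem_univ _, g, hg, rfl⟩
  rw [h2, prod_image fun g _ h _ hgh => comp_inj ι hgh]
  rfl

include hodd in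
/-- **The Hecke character of the Jacobi sums.** -/
theorem exists_hecke : ∃ ψ : Ideal (𝓞 E) →*₀ ℂ, IsHecke (cond ℓ E) (kk ℓ j ι) 0 ψ ∧
    ∀ y : DD ℓ E, ψ (RingHom.ker y.1.2) =
      -emb ι (JJ ℓ j y.1.2 y.2.2) / ((Real.sqrt ((y.1.1 : ℕ) : ℝ) : ℝ) : ℂ) := by
  have htop := cond_ne_top ℓ E
  have := Mq_cancel htop
  obtain ⟨F, hF⟩ := ext_mon (pp ℓ (E := E)) (Ph ℓ hodd j ι) (by
    intro a b hab
    ext
    rw [Ph_coe, Ph_coe]
    unfold vv
    rw [hab, AA_eq ℓ hodd j hab])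
  have hval : ∀ t : T1 ℓ E × Multiplicative (Multiset (DD ℓ E)),
      oM htop (nrm.comp F) ((pp ℓ t : Mq (cond ℓ E)) : Ideal (𝓞 E)) = vv ℓ j ι t := by
    intro t
    rw [oM_coe, MonoidHom.comp_apply, hF, nrm_of_norm, Ph_coe]
    rw [Ph_coe]
    exact norm_vv ℓ hodd j ι t
  refine ⟨oM htop (nrm.comp F), ⟨cond_ne_bot ℓ E, fun 𝔞 _ => oM_supp htop _ 𝔞, ?_, ?_⟩, ?_⟩
  · intro 𝔞 h𝔞
    have h1 := (oM_supp htop (nrm.comp F) 𝔞).1 h𝔞
    have h2 := oM_coe htop (nrm.comp F) (⟨𝔞, h1⟩ : Mq (cond ℓ E))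
    have h3 : ((⟨𝔞, h1⟩ : Mq (cond ℓ E)) : Ideal (𝓞 E)) = 𝔞 := rfl
    rw [h3] at h2
    rw [h2, MonoidHom.comp_apply]
    exact norm_nrm _
  · intro x hx hx1 _
    have h1 := hval (⟨x, hx1⟩, 1)
    have h2 : ((pp ℓ (⟨x, hx1⟩, 1) : Mq (cond ℓ E)) : Ideal (𝓞 E)) = Ideal.span {x} := by
      rw [pp_apply, map_one, mul_one]
      rfl
    rw [h2] at h1
    rw [h1, arch_eq, prod_div_distrib]
    unfold vv
    rw [h2, AA_apply, map_one, mul_one]
    have h3 : emb ι (a1 ℓ j ⟨x, hx1⟩) = ∏ g ∈ SS ℓ E j, emb ι (act g x) := by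
      change emb ι (∏ g ∈ SS ℓ E j, act g x) = _
      rw [map_prod]
    rw [h3]
    congr 1
    rw [← Complex.ofReal_prod]
    congr 1
    have h4 := half_norm ℓ hodd ι j 1 x
    simp only [one_mul] at h4
    rw [← h4, Real.sqrt_sq (prod_nonneg fun g _ => norm_nonneg _)]
  · intro y
    have h1 := hval (1, Multiplicative.ofAdd {y})
    have h2 : ((pp ℓ (1, Multiplicative.ofAdd {y}) : Mq (cond ℓ E)) : Ideal (𝓞 E)) =
        RingHom.ker y.1.2 := by
      rw [pp_apply, map_one, one_mul, liftM_single]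
      rfl
    rw [h2] at h1
    rw [h1]
    unfold vv
    rw [h2, AA_apply, map_one, one_mul, liftM_single, map_neg, absNorm_ker]

end hecke

end Pool.Agent.L7h11.JS
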