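import Mathlib

/-!
# The Jacobi sums of a character of order `ℓ` and of the quadratic character
-/

set_option autoImplicit false
set_option linter.unusedSectionVars false

namespace Pool.Agent.L7h11.JS

open Finset

section power

variable {p : ℕ} [hp : Fact p.Prime]

/-- the power sums -/
theorem sum_pow_eq {e : ℕ} (h1 : 0 < e) (h2 : e < 2 * (p - 1)) :
    ∑ a : ZMod p, a ^ e = if e = p - 1 then -1 else 0 := by
  classical
  have hcard : Fintype.card (ZMod p) = p := ZMod.card p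
  have hp2 := hp.out.two_le
  split_ifs with h
  · have e1 : ∑ a : ZMod p, a ^ e = ∑ a : ZMod p, (1 - if a = 0 then (1 : ZMod p) else 0) := by
      refine sum_congr rfl fun a _ => ?_
      split_ifs with ha
      · rw [ha, zero_pow (by omega), sub_self]
      · rw [h, ZMod.pow_card_sub_one_eq_one ha, sub_zero]
    rw [e1, sum_sub_distrib, sum_const, card_univ, hcard, nsmul_eq_mul, mul_one,
      CharP.cast_eq_zero, sum_ite_eq']
    simp
  · by_cases h3 : e < p - 1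
    · have := FiniteField.sum_pow_lt_card_sub_one (K := ZMod p) e (by rw [hcard]; exact h3)
      exact this
    · have e1 : ∑ a : ZMod p, a ^ e = ∑ a : ZMod p, a ^ (e - (p - 1)) := by
        refine sum_congr rfl fun a _ => ?_
        by_cases ha : a = 0
        · rw [ha, zero_pow (by omega), zero_pow (by omega)]
        · have : e = (p - 1) + (e - (p - 1)) := by omega
          conv_lhs => rw [this, pow_add, ZMod.pow_card_sub_one_eq_one ha, one_mul]
      rw [e1]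
      exact FiniteField.sum_pow_lt_card_sub_one (K := ZMod p) _ (by rw [hcard]; omega)

/-- the binomial theorem -/
theorem beta_sum (n N : ℕ) (hn : 0 < n) (hnN : n + N < 2 * (p - 1)) :
    ∑ a : ZMod p, a ^ n * (1 - a) ^ N =
      ∑ k ∈ range (N + 1), if n + k = p - 1 then -((-1) ^ k * (N.choose k : ZMod p)) else 0 := by
  have e1 : ∀ a : ZMod p, a ^ n * (1 - a) ^ N =
      ∑ k ∈ range (N + 1), ((-1) ^ k * (N.choose k : ZMod p)) * a ^ (n + k) := by
    intro a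
    have : (1 - a) ^ N = (-a + 1) ^ N := by ring
    rw [this, add_pow, mul_sum]
    refine sum_congr rfl fun k _ => ?_
    rw [one_pow, mul_one, neg_pow]
    ring
  simp only [e1]
  rw [sum_comm]
  refine sum_congr rfl fun k hk => ?_
  rw [mem_range] at hk
  rw [← mul_sum, sum_pow_eq (by omega) (by omega)]
  split_ifs with h
  · ring
  · ring

theorem beta_zero {n N : ℕ} (hn : 0 < n) (hnN : n + N < p - 1) :
    ∑ a : ZMod p, a ^ n * (1 - a) ^ N = 0 := by
  rw [beta_sum n N hn (by omega)]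
  refine sum_eq_zero fun k hk => ?_
  rw [mem_range] at hk
  rw [if_neg (by omega)]

theorem beta_ne_zero {n N : ℕ} (hn1 : n < p - 1) (hnN : p - 1 ≤ n + N)
    (hN : N ≤ p - 1) (hn : 0 < n) :
    ∑ a : ZMod p, a ^ n * (1 - a) ^ N ≠ 0 := by
  have hp2 := hp.out.two_le
  rw [beta_sum n N hn (by omega), sum_eq_single (p - 1 - n)]
  · rw [if_pos (by omega), neg_ne_zero]
    refine mul_ne_zero (pow_ne_zero _ (neg_ne_zero.2 one_ne_zero)) ?_
    rw [Ne, ZMod.natCast_eq_zero_iff]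
    intro h
    have h1 : N.choose (p - 1 - n) ∣ N.factorial :=
      ⟨(p - 1 - n).factorial * (N - (p - 1 - n)).factorial, by
        rw [← mul_assoc, Nat.choose_mul_factorial_mul_factorial (by omega)]⟩
    have h2 := (hp.out.dvd_factorial).1 (h.trans h1)
    omega
  · intro k _ hk
    rw [if_neg (by omega)]
  · intro h
    rw [mem_range] at h
    omega

end power

section lift

variable {O : Type*} [CommRing O] [IsDomain O] {p : ℕ} [hp : Fact p.Prime]

/-- the quadratic character -/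
noncomputable def qc (O : Type*) [CommRing O] (p : ℕ) [Fact p.Prime] : MulChar (ZMod p) O :=
  (quadraticChar (ZMod p)).ringHomComp (Int.castRingHom O)

theorem qc_apply (a : ZMod p) : qc O p a = ((quadraticChar (ZMod p) a : ℤ) : O) := rfl

theorem map_qc (h2 : p ≠ 2) (φ : O →+* ZMod p) (a : ZMod p) : φ (qc O p a) = a ^ ((p - 1) / 2) := by
  rw [qc_apply, map_intCast, quadraticChar_eq_pow_of_char_ne_two' (by rwa [ZMod.ringChar_zmod_n]) a,
    ZMod.card]
  congr 1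
  obtain ⟨k, hk⟩ := hp.out.odd_of_ne_two h2
  omega

/-- `χ` is the character `a ↦ a ^ ((p - 1) / ℓ)`, lifted by `φ`. -/
structure IsLift (ζ : O) (ℓ : ℕ) (φ : O →+* ZMod p) (χ : MulChar (ZMod p) O) : Prop where
  val : ∀ a : ZMod p, a ≠ 0 → ∃ i : ℕ, χ a = ζ ^ i
  map : ∀ a : ZMod p, φ (χ a) = a ^ ((p - 1) / ℓ)

theorem exists_lift {ζ : O} {ℓ : ℕ} (hℓ : 0 < ℓ) (hζ : ζ ^ ℓ = 1) (φ : O →+* ZMod p)
    (hφ : IsPrimitiveRoot (φ ζ) ℓ) : ℓ ∣ p - 1 ∧ ∃ χ, IsLift ζ ℓ φ χ := by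
  classical
  have hp1 := hp.out.one_lt
  have hne : φ ζ ≠ 0 := by
    intro h
    have := hφ.pow_eq_one
    rw [h, zero_pow hℓ.ne'] at this
    exact zero_ne_one this
  have hdvd : ℓ ∣ p - 1 := hφ.dvd_of_pow_eq_one _ (ZMod.pow_card_sub_one_eq_one hne)
  refine ⟨hdvd, ?_⟩
  obtain ⟨g, hg⟩ := IsCyclic.exists_generator (α := (ZMod p)ˣ)
  have hpos : 0 < (p - 1) / ℓ := Nat.div_pos (Nat.le_of_dvd (by omega) hdvd) hℓ
  have h1 : ((g : ZMod p) ^ ((p - 1) / ℓ)) ^ ℓ = 1 := by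
    rw [← pow_mul, Nat.div_mul_cancel hdvd]
    exact ZMod.pow_card_sub_one_eq_one g.ne_zero
  haveI : NeZero ℓ := ⟨hℓ.ne'⟩
  obtain ⟨i, -, hi⟩ := hφ.eq_pow_of_pow_eq_one h1
  set u : Oˣ := Units.ofPowEqOne ζ ℓ hζ hℓ.ne' with hu
  have hu1 : (u : O) = ζ := rfl
  have huℓ : u ^ ℓ = 1 := by
    ext
    rw [Units.val_pow_eq_pow_val, hu1, hζ, Units.val_one]
  have hmem : u ^ i ∈ rootsOfUnity (Fintype.card (ZMod p)ˣ) O := by
    rw [mem_rootsOfUnity, ZMod.card_units, ← Nat.div_mul_cancel hdvd, ← pow_mul, ← mul_assoc,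
      pow_mul _ (i * ((p - 1) / ℓ)) ℓ, ← pow_mul, mul_comm _ ℓ, pow_mul, huℓ, one_pow]
  refine ⟨MulChar.ofRootOfUnity hmem hg, ?_⟩
  have hspec := MulChar.ofRootOfUnity_spec hmem hg
  have hpow : ∀ a : ZMod p, a ≠ 0 → ∃ k : ℕ, a = (g : ZMod p) ^ k ∧
      MulChar.ofRootOfUnity hmem hg a = ζ ^ (i * k) := by
    intro a ha
    obtain ⟨k, hk⟩ := (Submonoid.mem_powers_iff _ _).1
      ((mem_powers_iff_mem_zpowers).2 (hg (Units.mk0 a ha)))
    have hk' : a = (g : ZMod p) ^ k := by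
      have := congrArg (fun z : (ZMod p)ˣ => (z : ZMod p)) hk
      simp only [Units.val_pow_eq_pow_val, Units.val_mk0] at this
      exact this.symm
    refine ⟨k, hk', ?_⟩
    rw [hk', map_pow, hspec, Units.val_pow_eq_pow_val, hu1, pow_mul]
  refine ⟨fun a ha => ?_, fun a => ?_⟩
  · obtain ⟨k, -, h⟩ := hpow a ha
    exact ⟨_, h⟩
  · by_cases ha : a = 0
    · rw [ha, MulChar.map_zero, map_zero, zero_pow hpos.ne']
    · obtain ⟨k, h2, h3⟩ := hpow a ha
      rw [h3, map_pow, pow_mul, hi, h2, ← pow_mul, ← pow_mul, mul_comm]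

variable {ζ : O} {ℓ : ℕ} {φ : O →+* ZMod p} {χ : MulChar (ZMod p) O}

/-- the Jacobi sum -/
noncomputable def J (χ : MulChar (ZMod p) O) (j : ℕ) : O := jacobiSum (χ ^ j) (qc O p)

/-- the image of the Jacobi sum in the residue field -/
theorem map_J (h2 : p ≠ 2) (h : IsLift ζ ℓ φ χ) {j : ℕ} (hj : 0 < j) :
    φ (J χ j) = ∑ a : ZMod p, a ^ (j * ((p - 1) / ℓ)) * (1 - a) ^ ((p - 1) / 2) := by
  unfold J jacobiSum
  rw [map_sum]
  refine sum_congr rfl fun a _ => ?_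
  rw [map_mul, map_qc h2, MulChar.pow_apply' _ hj.ne', map_pow, h.map, ← pow_mul, mul_comm j]

theorem map_J_eq_zero (h2 : p ≠ 2) (h : IsLift ζ ℓ φ χ) (hdvd : ℓ ∣ p - 1) {j : ℕ} (hj : 0 < j)
    (hjℓ : 2 * j < ℓ) : φ (J χ j) = 0 := by
  rw [map_J h2 h hj]
  obtain ⟨c, hc⟩ := hdvd
  have hp1 := hp.out.one_lt
  have hℓ : 0 < ℓ := by omega
  have e : (p - 1) / ℓ = c := by rw [hc]; exact Nat.mul_div_cancel_left _ hℓ
  have hc0 : 0 < c := by
    rcases Nat.eq_zero_or_pos c with h0 | h0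
    · rw [h0, mul_zero] at hc
      omega
    · exact h0
  obtain ⟨k, hk⟩ := hp.out.odd_of_ne_two h2
  rw [e]
  refine beta_zero (Nat.mul_pos hj hc0) ?_
  have h3 : 2 * (j * c) < p - 1 := by
    rw [hc]
    calc 2 * (j * c) = (2 * j) * c := by ring
      _ < ℓ * c := Nat.mul_lt_mul_of_pos_right hjℓ hc0
  omega

theorem map_J_ne_zero (h2 : p ≠ 2) (h : IsLift ζ ℓ φ χ) (hdvd : ℓ ∣ p - 1) {j : ℕ}
    (hjℓ : ℓ < 2 * j) (hj : j < ℓ) : φ (J χ j) ≠ 0 := by
  have hj0 : 0 < j := by omega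
  rw [map_J h2 h hj0]
  obtain ⟨c, hc⟩ := hdvd
  have hp1 := hp.out.one_lt
  have hℓ : 0 < ℓ := by omega
  have e : (p - 1) / ℓ = c := by rw [hc]; exact Nat.mul_div_cancel_left _ hℓ
  have hc0 : 0 < c := by
    rcases Nat.eq_zero_or_pos c with h0 | h0
    · rw [h0, mul_zero] at hc
      omega
    · exact h0
  obtain ⟨k, hk⟩ := hp.out.odd_of_ne_two h2
  rw [e]
  have h3 : p - 1 < 2 * (j * c) := by
    rw [hc]
    calc ℓ * c < (2 * j) * c := Nat.mul_lt_mul_of_pos_right hjℓ hc0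
      _ = 2 * (j * c) := by ring
  have h4 : j * c < p - 1 := by
    rw [hc]
    exact Nat.mul_lt_mul_of_pos_right hj hc0
  exact beta_ne_zero h4 (by omega) (by omega) (Nat.mul_pos hj0 hc0)

/-- `χ` has order `ℓ` -/
theorem IsLift.pow_ne_one (h : IsLift ζ ℓ φ χ) (hdvd : ℓ ∣ p - 1) {j : ℕ} (hj : 0 < j)
    (hjℓ : j < ℓ) : χ ^ j ≠ 1 := by
  intro h1
  obtain ⟨g, hg⟩ := IsCyclic.exists_generator (α := (ZMod p)ˣ)
  have h2 : φ ((χ ^ j) g) = 1 := by rw [h1, MulChar.one_apply_coe, map_one]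
  rw [MulChar.pow_apply' _ hj.ne', map_pow, h.map, ← pow_mul] at h2
  have h3 : g ^ ((p - 1) / ℓ * j) = 1 := by
    ext
    rw [Units.val_pow_eq_pow_val, h2, Units.val_one]
  have h4 : orderOf g = p - 1 := by
    rw [orderOf_eq_card_of_forall_mem_zpowers hg, Nat.card_eq_fintype_card, ZMod.card_units]
  have h5 := orderOf_dvd_of_pow_eq_one h3
  rw [h4] at h5
  obtain ⟨c, hc⟩ := hdvd
  have hp1 := hp.out.one_lt
  have hℓ : 0 < ℓ := by omega
  have e : (p - 1) / ℓ = c := by rw [hc]; exact Nat.mul_div_cancel_left _ hℓ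
  have hc0 : 0 < c := by
    rcases Nat.eq_zero_or_pos c with h0 | h0
    · rw [h0, mul_zero] at hc
      omega
    · exact h0
  rw [e, hc] at h5
  have h6 := Nat.le_of_dvd (Nat.mul_pos hc0 hj) h5
  have h7 : c * j < ℓ * c := by
    rw [mul_comm ℓ c]
    exact Nat.mul_lt_mul_of_pos_left hjℓ hc0
  omega

theorem IsLift.pow_eq_one (h : IsLift ζ ℓ φ χ) (hζ : ζ ^ ℓ = 1) (hℓ : 0 < ℓ) : χ ^ ℓ = 1 := by
  ext a
  obtain ⟨i, hi⟩ := h.val a a.ne_zero
  rw [MulChar.pow_apply' _ hℓ.ne', hi, ← pow_mul, mul_comm, pow_mul, hζ, one_pow,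
    MulChar.one_apply_coe]

end lift

end Pool.Agent.L7h11.JS
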