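import Pool.Agent.L7h11.JS.Jac

/-!
# The Jacobi sums: absolute values, congruences, conjugates, point counts
-/

set_option autoImplicit false
set_option linter.unusedSectionVars false

namespace Pool.Agent.L7h11.JS

open Finset

variable {O : Type*} [CommRing O] [IsDomain O] [CharZero O] {p : ℕ} [hp : Fact p.Prime]
  {ζ : O} {ℓ : ℕ} {φ : O →+* ZMod p} {χ : MulChar (ZMod p) O}

theorem qc_ne_one (h2 : p ≠ 2) : qc O p ≠ 1 := by
  unfold qc
  rw [MulChar.ringHomComp_ne_one_iff (RingHom.injective_int _)]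
  exact quadraticChar_ne_one (by rwa [ZMod.ringChar_zmod_n])

theorem qc_sq_eq_one : (qc O p) ^ 2 = 1 := by
  ext a
  rw [MulChar.pow_apply' _ two_ne_zero, qc_apply, MulChar.one_apply_coe]
  have h := quadraticChar_sq_one (F := ZMod p) a.ne_zero
  exact_mod_cast h

theorem qc_cases {a : ZMod p} (ha : a ≠ 0) : qc O p a = 1 ∨ qc O p a = -1 := by
  rw [qc_apply]
  rcases quadraticChar_dichotomy ha with h | h
  · left; rw [h, Int.cast_one]
  · right; rw [h, Int.cast_neg, Int.cast_one]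

/-- **The absolute value of the Jacobi sum.** -/
theorem norm_J_sq (h2 : p ≠ 2) (h : IsLift ζ ℓ φ χ) (hζ : ζ ^ ℓ = 1) (hdvd : ℓ ∣ p - 1)
    (hodd : Odd ℓ) {j : ℕ} (hj : 0 < j) (hjℓ : j < ℓ) {τ : O →+* ℂ}
    (hτ : Function.Injective τ) : ‖τ (J χ j)‖ ^ 2 = p := by
  have hχ : (χ ^ j).ringHomComp τ ≠ 1 :=
    (MulChar.ringHomComp_ne_one_iff hτ).2 (h.pow_ne_one hdvd hj hjℓ)
  have hη : (qc O p).ringHomComp τ ≠ 1 := (MulChar.ringHomComp_ne_one_iff hτ).2 (qc_ne_one h2)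
  have hχη : (χ ^ j).ringHomComp τ * (qc O p).ringHomComp τ ≠ 1 := by
    rw [← MulChar.ringHomComp_mul, MulChar.ringHomComp_ne_one_iff hτ]
    intro h1
    have h3 : (χ ^ j * qc O p) ^ ℓ = qc O p := by
      rw [mul_pow, ← pow_mul, mul_comm j, pow_mul, h.pow_eq_one hζ (by omega), one_pow, one_mul]
      obtain ⟨k, hk⟩ := hodd
      rw [hk, pow_add, pow_mul, qc_sq_eq_one, one_pow, one_mul, pow_one]
    rw [h1, one_pow] at h3
    exact qc_ne_one h2 h3.symm
  have hch : ringChar ℂ ≠ ringChar (ZMod p) := by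
    rw [ringChar.eq_zero, ZMod.ringChar_zmod_n]
    exact hp.out.ne_zero.symm
  have h1 := jacobiSum_mul_jacobiSum_inv hch hχ hη hχη
  have h3 : jacobiSum ((χ ^ j).ringHomComp τ)⁻¹ ((qc O p).ringHomComp τ)⁻¹ =
      (starRingEnd ℂ) (jacobiSum ((χ ^ j).ringHomComp τ) ((qc O p).ringHomComp τ)) := by
    unfold jacobiSum
    rw [map_sum]
    refine sum_congr rfl fun a _ => ?_
    rw [map_mul, ← MulChar.star_apply', ← MulChar.star_apply']
    rfl
  rw [h3, Complex.mul_conj, jacobiSum_ringHomComp, ZMod.card, Complex.normSq_eq_norm_sq] at h1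
  unfold J
  exact_mod_cast h1

/-- **The congruence modulo two.** -/
theorem J_mod_two (h : IsLift ζ ℓ φ χ) (hdvd : ℓ ∣ p - 1) {j : ℕ} (hj : 0 < j) (hjℓ : j < ℓ) :
    -J χ j - 1 ∈ Ideal.span {(2 : O)} := by
  classical
  have h1 : ∑ a : ZMod p, (χ ^ j) a = 0 :=
    MulChar.sum_eq_zero_of_ne_one (h.pow_ne_one hdvd hj hjℓ)
  have h2 : -J χ j - 1 = -∑ a : ZMod p, ((χ ^ j) a * (qc O p (1 - a) -
      (if a = 1 then 0 else 1))) := by
    have e1 : ∑ a : ZMod p, (χ ^ j) a * (if a = 1 then (0 : O) else 1) = -1 := by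
      have e2 : ∀ a : ZMod p, (χ ^ j) a * (if a = 1 then (0 : O) else 1) =
          (χ ^ j) a - if a = 1 then (χ ^ j) 1 else 0 := by
        intro a
        split_ifs with ha
        · rw [ha, mul_zero, sub_self]
        · rw [mul_one, sub_zero]
      simp only [e2]
      rw [sum_sub_distrib, h1, sum_ite_eq', if_pos (mem_univ _), map_one, zero_sub]
    simp only [mul_sub]
    rw [sum_sub_distrib, e1]
    unfold J jacobiSum
    ring
  rw [h2]
  refine neg_mem (Ideal.sum_mem _ fun a _ => Ideal.mul_mem_left _ _ ?_)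
  by_cases ha : a = 1
  · rw [if_pos ha, ha, sub_self, MulChar.map_zero, sub_zero]
    exact Ideal.zero_mem _
  · rw [if_neg ha]
    rcases qc_cases (O := O) (sub_ne_zero.2 (Ne.symm ha)) with h3 | h3
    · rw [h3, sub_self]
      exact Ideal.zero_mem _
    · rw [h3, Ideal.mem_span_singleton]
      exact ⟨-1, by ring⟩

/-- **The congruence modulo `1 - ζ`.** -/
theorem J_mod_lam (h2 : p ≠ 2) (h : IsLift ζ ℓ φ χ) {j : ℕ} (hj : 0 < j) :
    -J χ j - 1 ∈ Ideal.span {1 - ζ} := by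
  classical
  have h1 : ∑ a : ZMod p, qc O p (1 - a) = 0 := by
    have : ∑ a : ZMod p, qc O p (1 - a) = ∑ a : ZMod p, qc O p a :=
      Fintype.sum_equiv (Equiv.subLeft 1) _ _ fun a => rfl
    rw [this]
    exact MulChar.sum_eq_zero_of_ne_one (qc_ne_one h2)
  have h3 : -J χ j - 1 = -∑ a : ZMod p, (((χ ^ j) a - (if a = 0 then 0 else 1)) *
      qc O p (1 - a)) := by
    have e1 : ∑ a : ZMod p, (if a = 0 then (0 : O) else 1) * qc O p (1 - a) = -1 := by
      have e2 : ∀ a : ZMod p, (if a = 0 then (0 : O) else 1) * qc O p (1 - a) =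
          qc O p (1 - a) - if a = 0 then qc O p (1 - 0) else 0 := by
        intro a
        split_ifs with ha
        · rw [ha, zero_mul, sub_self]
        · rw [one_mul, sub_zero]
      simp only [e2]
      rw [sum_sub_distrib, h1, sum_ite_eq', if_pos (mem_univ _), sub_zero, map_one, zero_sub]
    simp only [sub_mul]
    rw [sum_sub_distrib, e1]
    unfold J jacobiSum
    ring
  rw [h3]
  refine neg_mem (Ideal.sum_mem _ fun a _ => Ideal.mul_mem_right _ _ ?_)
  by_cases ha : a = 0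
  · rw [if_pos ha, ha, MulChar.map_zero, sub_zero]
    exact Ideal.zero_mem _
  · rw [if_neg ha, MulChar.pow_apply' _ hj.ne']
    obtain ⟨i, hi⟩ := h.val a ha
    rw [hi, ← pow_mul, Ideal.mem_span_singleton]
    have h4 : ζ - 1 ∣ ζ ^ (i * j) - 1 := by
      simpa using sub_dvd_pow_sub_pow ζ 1 (i * j)
    have h5 : 1 - ζ ∣ ζ - 1 := ⟨-1, by ring⟩
    exact h5.trans h4

/-- **The conjugates of the Jacobi sum.** -/
theorem map_conj_J (h : IsLift ζ ℓ φ χ) (g : O →+* O) {s : ℕ} (hg : g ζ = ζ ^ s) {j : ℕ}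
    (hj : 0 < j) (hs : 0 < s) : g (J χ j) = J χ (j * s) := by
  unfold J jacobiSum
  rw [map_sum]
  refine sum_congr rfl fun a _ => ?_
  rw [map_mul, MulChar.pow_apply' _ hj.ne', MulChar.pow_apply' _ (Nat.mul_pos hj hs).ne',
    qc_apply, map_intCast, map_pow]
  congr 1
  by_cases ha : a = 0
  · rw [ha, MulChar.map_zero, map_zero, zero_pow hj.ne', zero_pow (Nat.mul_pos hj hs).ne']
  · obtain ⟨i, hi⟩ := h.val a ha
    rw [hi, map_pow, hg, ← pow_mul, ← pow_mul, ← pow_mul]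
    congr 1
    ring

theorem J_mod (h : IsLift ζ ℓ φ χ) (hζ : ζ ^ ℓ = 1) (hℓ : 0 < ℓ) (j : ℕ) :
    J χ (j % ℓ) = J χ j := by
  unfold J
  congr 1
  conv_rhs => rw [← Nat.div_add_mod j ℓ, pow_add, pow_mul, h.pow_eq_one hζ hℓ, one_pow, one_mul]

section count

/-- the number of the solutions of `x ^ ℓ = u` -/
theorem card_root (h : IsLift ζ ℓ φ χ) (hζ : ζ ^ ℓ = 1) (hℓ : 0 < ℓ)
    (hφ : IsPrimitiveRoot (φ ζ) ℓ) (hdvd : ℓ ∣ p - 1) {u : ZMod p} (hu : u ≠ 0) :
    (((univ.filter fun x : ZMod p => x ^ ℓ = u).card : ℕ) : O) =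
      1 + ∑ j ∈ Icc 1 (ℓ - 1), (χ ^ j) u := by
  classical
  have hsum : 1 + ∑ j ∈ Icc 1 (ℓ - 1), (χ ^ j) u = ∑ j ∈ range ℓ, (χ u) ^ j := by
    have e1 : ∀ j ∈ Icc 1 (ℓ - 1), (χ ^ j) u = (χ u) ^ j := by
      intro j hj
      rw [mem_Icc] at hj
      rw [MulChar.pow_apply' _ (by omega)]
    rw [sum_congr rfl e1]
    obtain ⟨n, rfl⟩ : ∃ n, ℓ = n + 1 := ⟨ℓ - 1, by omega⟩
    rw [sum_range_succ', pow_zero, add_comm, Nat.add_sub_cancel]
    congr 1
    rw [range_eq_Ico, sum_Ico_add' (fun j => (χ u) ^ j) 0 n 1]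
    rfl
  rw [hsum]
  by_cases hr : ∃ v : ZMod p, v ^ ℓ = u
  · obtain ⟨v, hv⟩ := hr
    have hv0 : v ≠ 0 := by
      intro h0
      rw [h0, zero_pow hℓ.ne'] at hv
      exact hu hv.symm
    have h1 : χ u = 1 := by
      rw [← hv, map_pow, ← MulChar.pow_apply' _ hℓ.ne', h.pow_eq_one hζ hℓ]
      exact MulChar.one_apply hv0.isUnit
    have h2 : (univ.filter fun x : ZMod p => x ^ ℓ = u) =
        (range ℓ).image fun i => v * (φ ζ) ^ i := by
      ext x
      rw [mem_filter, mem_image]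
      constructor
      · rintro ⟨-, hx⟩
        haveI : NeZero ℓ := ⟨hℓ.ne'⟩
        have h3 : (x / v) ^ ℓ = 1 := by
          rw [div_pow, hx, hv, div_self hu]
        obtain ⟨i, hi, h4⟩ := hφ.eq_pow_of_pow_eq_one h3
        exact ⟨i, mem_range.2 hi, by rw [h4, mul_div_cancel₀ _ hv0]⟩
      · rintro ⟨i, -, rfl⟩
        refine ⟨mem_univ _, ?_⟩
        rw [mul_pow, hv, ← pow_mul, mul_comm i, pow_mul, hφ.pow_eq_one, one_pow, mul_one]
    rw [h2, card_image_of_injOn, card_range]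
    · simp [h1]
    · intro i hi j hj hij
      have h3 := mul_left_cancel₀ hv0 hij
      exact hφ.pow_inj (mem_range.1 hi) (mem_range.1 hj) h3
  · have h1 : (univ.filter fun x : ZMod p => x ^ ℓ = u) = ∅ := by
      rw [filter_eq_empty_iff]
      exact fun x _ hx => hr ⟨x, hx⟩
    rw [h1, card_empty, Nat.cast_zero]
    have h2 : χ u ≠ 1 := by
      intro h3
      have h4 := h.map u
      rw [h3, map_one] at h4
      apply hr
      obtain ⟨g, hg⟩ := IsCyclic.exists_generator (α := (ZMod p)ˣ)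
      obtain ⟨k, hk⟩ := (Submonoid.mem_powers_iff _ _).1
        ((mem_powers_iff_mem_zpowers).2 (hg (Units.mk0 u hu)))
      have hk' : u = (g : ZMod p) ^ k := by
        have := congrArg (fun z : (ZMod p)ˣ => (z : ZMod p)) hk
        simp only [Units.val_pow_eq_pow_val, Units.val_mk0] at this
        exact this.symm
      have h5 : g ^ (k * ((p - 1) / ℓ)) = 1 := by
        ext
        rw [Units.val_pow_eq_pow_val, Units.val_one, pow_mul, ← hk', h4]
      have h6 : orderOf g = p - 1 := by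
        rw [orderOf_eq_card_of_forall_mem_zpowers hg, Nat.card_eq_fintype_card, ZMod.card_units]
      have h7 := orderOf_dvd_of_pow_eq_one h5
      rw [h6] at h7
      obtain ⟨c, hc⟩ := hdvd
      have hp1 := hp.out.one_lt
      have e : (p - 1) / ℓ = c := by rw [hc]; exact Nat.mul_div_cancel_left _ hℓ
      have hc0 : 0 < c := by
        rcases Nat.eq_zero_or_pos c with h0 | h0
        · rw [h0, mul_zero] at hc
          omega
        · exact h0
      rw [e, hc] at h7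
      have h8 : ℓ ∣ k := Nat.dvd_of_mul_dvd_mul_right hc0 h7
      obtain ⟨t, ht⟩ := h8
      exact ⟨(g : ZMod p) ^ t, by rw [hk', ht, ← pow_mul, mul_comm]⟩
    have h3 : (∑ j ∈ range ℓ, (χ u) ^ j) * (χ u - 1) = 0 := by
      rw [geom_sum_mul, ← MulChar.pow_apply' _ hℓ.ne', h.pow_eq_one hζ hℓ,
        MulChar.one_apply hu.isUnit, sub_self]
    exact ((mul_eq_zero.1 h3).resolve_right (sub_ne_zero.2 h2)).symm

/-- **The sum over the curve `y² = x ^ ℓ + 1`.** -/
theorem sum_curve (h2 : p ≠ 2) (h : IsLift ζ ℓ φ χ) (hζ : ζ ^ ℓ = 1) (hodd : Odd ℓ)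
    (hφ : IsPrimitiveRoot (φ ζ) ℓ) (hdvd : ℓ ∣ p - 1) :
    ∑ x : ZMod p, qc O p (x ^ ℓ + 1) = ∑ j ∈ Icc 1 (ℓ - 1), J χ j := by
  classical
  have hℓ : 0 < ℓ := hodd.pos
  have e1 : ∑ x : ZMod p, qc O p (x ^ ℓ + 1) =
      ∑ u : ZMod p, (((univ.filter fun x : ZMod p => x ^ ℓ = u).card : ℕ) : O) *
        qc O p (u + 1) := by
    rw [← sum_fiberwise (univ : Finset (ZMod p)) (fun x => x ^ ℓ)]
    refine sum_congr rfl fun u _ => ?_
    rw [sum_congr rfl (g := fun _ => qc O p (u + 1)), sum_const, nsmul_eq_mul]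
    intro x hx
    rw [(mem_filter.1 hx).2]
  have e2 : ∀ u : ZMod p, (((univ.filter fun x : ZMod p => x ^ ℓ = u).card : ℕ) : O) *
      qc O p (u + 1) = qc O p (u + 1) + ∑ j ∈ Icc 1 (ℓ - 1), (χ ^ j) u * qc O p (u + 1) := by
    intro u
    by_cases hu : u = 0
    · have h1 : (univ.filter fun x : ZMod p => x ^ ℓ = u) = {0} := by
        ext x
        rw [mem_filter, mem_singleton, hu]
        exact ⟨fun h => pow_eq_zero_iff hℓ.ne' |>.1 h.2, fun h => ⟨mem_univ _, by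
          rw [h, zero_pow hℓ.ne']⟩⟩
      have h3 : ∑ j ∈ Icc 1 (ℓ - 1), (χ ^ j) u * qc O p (u + 1) = 0 :=
        sum_eq_zero fun j _ => by rw [hu, MulChar.map_zero, zero_mul]
      rw [h1, card_singleton, Nat.cast_one, one_mul, h3, add_zero]
    · rw [card_root h hζ hℓ hφ hdvd hu, add_mul, one_mul, sum_mul]
  rw [e1, sum_congr rfl fun u _ => e2 u, sum_add_distrib]
  have e3 : ∑ u : ZMod p, qc O p (u + 1) = 0 := by
    have : ∑ u : ZMod p, qc O p (u + 1) = ∑ u : ZMod p, qc O p u :=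
      Fintype.sum_equiv (Equiv.addRight 1) _ _ fun a => rfl
    rw [this]
    exact MulChar.sum_eq_zero_of_ne_one (qc_ne_one h2)
  rw [e3, zero_add, sum_comm]
  refine sum_congr rfl fun j hj => ?_
  rw [mem_Icc] at hj
  unfold J jacobiSum
  refine Fintype.sum_equiv (Equiv.neg _) _ _ fun u => ?_
  rw [Equiv.neg_apply, sub_neg_eq_add, add_comm u 1]
  congr 1
  have h3 : (χ ^ j) (-1) = 1 := by
    have h4 : ((χ ^ j) (-1)) ^ ℓ = 1 := by
      rw [← MulChar.pow_apply' _ hℓ.ne', ← pow_mul, mul_comm, pow_mul, h.pow_eq_one hζ hℓ,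
        one_pow]
      exact MulChar.one_apply (neg_ne_zero.2 one_ne_zero).isUnit
    have h5 : ((χ ^ j) (-1)) ^ 2 = 1 := by
      rw [← map_pow, neg_one_sq, map_one]
    obtain ⟨k, hk⟩ := hodd
    rw [hk, pow_add, pow_mul, h5, one_pow, one_mul, pow_one] at h4
    exact h4
  rw [← neg_one_mul u, map_mul, h3, one_mul]

/-- if `ℓ` is prime to `p - 1`, the sum is zero -/
theorem sum_curve_zero (h2 : p ≠ 2) (hcop : Nat.Coprime ℓ (p - 1)) (hℓ : 0 < ℓ) :
    ∑ x : ZMod p, qc O p (x ^ ℓ + 1) = 0 := by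
  classical
  have hinj : Function.Injective fun x : ZMod p => x ^ ℓ := by
    have hp1 := hp.out.one_lt
    intro x y hxy
    simp only at hxy
    by_cases hx : x = 0
    · rw [hx, zero_pow hℓ.ne'] at hxy
      rw [hx, pow_eq_zero_iff hℓ.ne' |>.1 hxy.symm]
    · have hy : y ≠ 0 := by
        intro hy
        rw [hy, zero_pow hℓ.ne'] at hxy
        exact hx (pow_eq_zero_iff hℓ.ne' |>.1 hxy)
      have h3 : (x / y) ^ ℓ = 1 := by
        rw [div_pow, hxy, div_self (pow_ne_zero _ hy)]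
      have h4 : (x / y) ^ (p - 1) = 1 := ZMod.pow_card_sub_one_eq_one (div_ne_zero hx hy)
      have h5 : (x / y) ^ 1 = 1 := by
        rw [← hcop.gcd_eq_one]
        exact pow_gcd_eq_one.2 ⟨h3, h4⟩
      rw [pow_one] at h5
      exact (div_eq_one_iff_eq hy).1 h5
  have hbij := Finite.injective_iff_bijective.1 hinj
  have e1 : ∑ x : ZMod p, qc O p (x ^ ℓ + 1) = ∑ u : ZMod p, qc O p (u + 1) :=
    Fintype.sum_bijective _ hbij _ _ fun x => rfl
  rw [e1]
  have : ∑ u : ZMod p, qc O p (u + 1) = ∑ u : ZMod p, qc O p u :=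
    Fintype.sum_equiv (Equiv.addRight 1) _ _ fun a => rfl
  rw [this]
  exact MulChar.sum_eq_zero_of_ne_one (qc_ne_one h2)

end count

end Pool.Agent.L7h11.JS
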