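import Pool.Agent.L7h11.JS.Fin

/-!
# Products with the curves `d y² = x ^ ℓ + 1`: the final form
-/

set_option autoImplicit false
set_option linter.unusedSectionVars false

namespace Pool.Agent.L7h11.JS

open Finset NumberField IsDedekindDomain Filter Topology Asymptotics Polynomial
open Pool.Agent.N172.HS
open Pool.Agent.L7h11.GG (lim_le)
open Pool.Agent.W353.EF (IsEulerSystem LFun size)
open Pool.Agent.Y149.Ord (HasOrder tendsto_size)

variable {K : Type} [Field K] [NumberField K] {ℓ : ℕ} [hℓ : Fact ℓ.Prime]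

instance instNeZeroCast (k : Type) [Field k] [CharZero k] : NeZero ((ℓ : ℕ) : k) :=
  ⟨by exact_mod_cast hℓ.out.ne_zero⟩

instance instCyc (k : Type) [Field k] [CharZero k] :
    IsCyclotomicExtension {ℓ} k (CyclotomicField ℓ k) :=
  CyclotomicField.isCyclotomicExtension ℓ k

instance instCycRat : IsCyclotomicExtension {ℓ} ℚ (CyclotomicField ℓ ℚ) := by
  have h : @IsCyclotomicExtension {ℓ} ℚ (CyclotomicField ℓ ℚ) _ _
      (CyclotomicField.algebra ℓ ℚ) := CyclotomicField.isCyclotomicExtension ℓ ℚ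
  convert h
  exact Subsingleton.elim _ _

theorem exists_emb : Nonempty (CyclotomicField ℓ ℚ →+* CyclotomicField ℓ K) := by
  have h1 := IsCyclotomicExtension.zeta_spec ℓ ℚ (CyclotomicField ℓ ℚ)
  have h2 := IsCyclotomicExtension.zeta_spec ℓ K (CyclotomicField ℓ K)
  refine ⟨((h1.powerBasis ℚ).lift (IsCyclotomicExtension.zeta ℓ K (CyclotomicField ℓ K)) ?_ :
    CyclotomicField ℓ ℚ →ₐ[ℚ] CyclotomicField ℓ K)⟩
  rw [IsPrimitiveRoot.powerBasis_gen ℚ h1, ← h1.minpoly_eq_cyclotomic_of_irreducible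
    (cyclotomic.irreducible_rat hℓ.out.pos)]
  have h3 := h2.isRoot_cyclotomic hℓ.out.pos
  rw [← map_cyclotomic ℓ (algebraMap ℚ (CyclotomicField ℓ K)), IsRoot.def, eval_map] at h3
  rw [aeval_def]
  exact h3

theorem card_aut : Nat.card (CyclotomicField ℓ K ≃ₐ[K] CyclotomicField ℓ K) =
    Module.finrank K (CyclotomicField ℓ K) := by
  have hG : IsGalois K (CyclotomicField ℓ K) :=
    IsCyclotomicExtension.isGalois ({ℓ} : Set ℕ) K (CyclotomicField ℓ K)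
  have hfd : FiniteDimensional K (CyclotomicField ℓ K) :=
    Module.Finite.of_restrictScalars_finite ℚ K (CyclotomicField ℓ K)
  exact IsGalois.card_aut_eq_finrank K (CyclotomicField ℓ K)

/-- the degree of the cyclotomic extension -/
theorem degree_ge : ℓ - 1 ≤ Module.finrank K (CyclotomicField ℓ K) * Module.finrank ℚ K := by
  obtain ⟨i⟩ := exists_emb (K := K) (ℓ := ℓ)
  have h1 : Module.finrank ℚ (CyclotomicField ℓ ℚ) = ℓ - 1 := by
    rw [IsCyclotomicExtension.finrank (CyclotomicField ℓ ℚ)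
      (cyclotomic.irreducible_rat hℓ.out.pos), Nat.totient_prime hℓ.out]
  have h2 : Module.finrank ℚ (CyclotomicField ℓ ℚ) ≤ Module.finrank ℚ (CyclotomicField ℓ K) :=
    LinearMap.finrank_le_finrank_of_injective (f := (i.toRatAlgHom).toLinearMap) i.injective
  have h3 := Module.finrank_mul_finrank ℚ K (CyclotomicField ℓ K)
  rw [← h1, mul_comm, h3]
  exact h2

variable {Y : Variety K} (hY : 1 ≤ Y.dim) (hodd : Odd ℓ) {d : 𝓞 K} (hd : d ≠ 0)
  {A B : HeightOneSpectrum (𝓞 K) → ℂ[X]}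
  (hA : IsEulerSystem Y.eqs Y.dim 2 (Y.betti 2) A) (hB : IsL2Curve Y ℓ d B)

include hY hodd hd hA hB

theorem final_size {η : ℝ} (hη : 0 < η) : ∀ᶠ ε : ℝ in 𝓝[>] 0, |size 2 B ε - size 2 A ε - 1| ≤
    Y.betti 1 * Real.sqrt (ℓ - 1) / Module.finrank K (CyclotomicField ℓ K) + η := by
  obtain ⟨i⟩ := exists_emb (K := K) (ℓ := ℓ)
  have h := curve_bound (F := CyclotomicField ℓ K) hodd i hY hd hA hB
    (η := η ^ 2) (by positivity)
  rw [card_aut] at h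
  set m : ℕ := Module.finrank K (CyclotomicField ℓ K) with hm
  have hℓ1 : (0 : ℝ) ≤ (ℓ : ℝ) - 1 := by
    have := hℓ.out.one_lt
    have h1 : (1 : ℝ) ≤ ℓ := by exact_mod_cast this.le
    linarith
  filter_upwards [h] with ε h1
  have h5 : 0 ≤ (Y.betti 1 : ℝ) * Real.sqrt (ℓ - 1) / m := by positivity
  refine abs_le_of_sq_le_sq (h1.trans ?_) (by positivity)
  have e : ((Y.betti 1 : ℝ) * Real.sqrt (ℓ - 1) / m + η) ^ 2 =
      (Y.betti 1 : ℝ) ^ 2 * (ℓ - 1) / (m : ℝ) ^ 2 + η ^ 2 +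
        2 * ((Y.betti 1 : ℝ) * Real.sqrt (ℓ - 1) / m) * η := by
    have h4 : Real.sqrt ((ℓ : ℝ) - 1) ^ 2 = (ℓ : ℝ) - 1 := Real.sq_sqrt hℓ1
    calc _ = (Y.betti 1 : ℝ) ^ 2 * Real.sqrt ((ℓ : ℝ) - 1) ^ 2 / (m : ℝ) ^ 2 + η ^ 2 +
          2 * ((Y.betti 1 : ℝ) * Real.sqrt (ℓ - 1) / m) * η := by ring
      _ = _ := by rw [h4]
  rw [e]
  have h6 : 0 ≤ 2 * ((Y.betti 1 : ℝ) * Real.sqrt (ℓ - 1) / m) * η := by positivity
  linarith

theorem final_order {r r₀ : ℤ} (hr : HasOrder 2 B (-r)) (hr₀ : HasOrder 2 A (-r₀)) :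
    |(r : ℝ) - r₀ - 1| ≤
      Y.betti 1 * Real.sqrt (ℓ - 1) / Module.finrank K (CyclotomicField ℓ K) := by
  refine lim_le (f := fun ε => |size 2 B ε - size 2 A ε - 1|) ?_
    (fun η hη => final_size hY hodd hd hA hB hη)
  have h1 := tendsto_size hr
  have h2 := tendsto_size hr₀
  rw [Int.cast_neg, neg_neg] at h1 h2
  exact ((h1.sub h2).sub_const _).abs

theorem final_order_eq {r r₀ : ℤ} (hr : HasOrder 2 B (-r)) (hr₀ : HasOrder 2 A (-r₀))
    (h : Y.betti 1 ^ 2 * (ℓ - 1) < Module.finrank K (CyclotomicField ℓ K) ^ 2) :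
    r = r₀ + 1 := by
  set m : ℕ := Module.finrank K (CyclotomicField ℓ K) with hm
  have h0 : (((ℓ - 1 : ℕ) : ℕ) : ℝ) = (ℓ : ℝ) - 1 := by
    rw [Nat.cast_sub hℓ.out.one_le, Nat.cast_one]
  have h' : (Y.betti 1 : ℝ) ^ 2 * ((ℓ : ℝ) - 1) < (m : ℝ) ^ 2 := by
    rw [← h0]
    exact_mod_cast h
  have hℓ1 : (0 : ℝ) ≤ (ℓ : ℝ) - 1 := by rw [← h0]; exact Nat.cast_nonneg _
  have hm0 : (0 : ℝ) < m := by
    rcases Nat.eq_zero_or_pos m with h1 | h1
    · rw [h1] at h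
      simp at h
    · exact_mod_cast h1
  have h1 := final_order hY hodd hd hA hB hr hr₀
  have h2 : (Y.betti 1 : ℝ) * Real.sqrt (ℓ - 1) / m < 1 := by
    rw [div_lt_one hm0]
    refine lt_of_pow_lt_pow_left₀ 2 hm0.le ?_
    rw [mul_pow, Real.sq_sqrt hℓ1]
    exact h'
  have h3 : |(r : ℝ) - r₀ - 1| < 1 := h1.trans_lt h2
  have h4 : |r - r₀ - 1| < 1 := by exact_mod_cast h3
  have h5 := Int.abs_lt_one_iff.1 h4
  omega

theorem final_order_eq' {r r₀ : ℤ} (hr : HasOrder 2 B (-r)) (hr₀ : HasOrder 2 A (-r₀))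
    (h : Y.betti 1 ^ 2 * Module.finrank ℚ K ^ 2 < ℓ - 1) : r = r₀ + 1 := by
  refine final_order_eq hY hodd hd hA hB hr hr₀ ?_
  have h1 := degree_ge (K := K) (ℓ := ℓ)
  set m : ℕ := Module.finrank K (CyclotomicField ℓ K) with hm
  set n : ℕ := Module.finrank ℚ K with hn
  have hn0 : 0 < n := Module.finrank_pos
  have h2 : (ℓ - 1) ^ 2 ≤ (m * n) ^ 2 := Nat.pow_le_pow_left h1 2
  have h3 : 0 < ℓ - 1 := by omega
  have h4 : (Y.betti 1 ^ 2 * (ℓ - 1)) * n ^ 2 < m ^ 2 * n ^ 2 := by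
    calc (Y.betti 1 ^ 2 * (ℓ - 1)) * n ^ 2 = (Y.betti 1 ^ 2 * n ^ 2) * (ℓ - 1) := by ring
      _ < (ℓ - 1) * (ℓ - 1) := Nat.mul_lt_mul_of_pos_right h h3
      _ = (ℓ - 1) ^ 2 := by ring
      _ ≤ (m * n) ^ 2 := h2
      _ = m ^ 2 * n ^ 2 := by ring
  exact Nat.lt_of_mul_lt_mul_right h4

end Pool.Agent.L7h11.JS
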